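import Pool.Agent.Helper7.AF.Omf
import Pool.Agent.Helper7.AF.Q31
import Pool.Agent.Helper71.AF.Ranks
import Pool.Agent.Helper71.AF.Cases

/-!
Abelian varieties whose endomorphism algebra is an imaginary quadratic field.
-/

namespace Pool.Agent.GPC

open Module NumberField Pool.Agent.Helper7 Pool.Agent.Helper71.AF

set_option linter.unusedSectionVars false

/-- `End(A) ⊗ ℚ` is the imaginary quadratic field `ℚ(J)`, `J^2 = -d`. -/
structure AbVar.IsQuadBy (A : AbVar) (d : ℚ) (J : A.H1 → A.H1) : Prop where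
  pos : 0 < d
  endo : A.IsEnd J
  sq : ∀ v, J (J v) = (-(d : ℂ)) • v
  all : ∀ f, A.IsEnd f → ∃ a b : ℚ, ∀ v, f v = (a : ℂ) • v + (b : ℂ) • J v

namespace AbVar.IsQuadBy

variable {A : AbVar} {d : ℚ} {J : A.H1 → A.H1} (H : A.IsQuadBy d J)

include H in
lemma comm {f g : A.H1 → A.H1} (hf : A.IsEnd f) (hg : A.IsEnd g) (v : A.H1) :
    f (g v) = g (f v) := by
  obtain ⟨a, b, h1⟩ := H.all f hf
  obtain ⟨a', b', h2⟩ := H.all g hg
  rw [h1, h2, h2, h1]
  simp only [H.endo.linear.map_add, H.endo.linear.map_smul, smul_add, smul_smul]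
  module

include H in
lemma isSimple : A.IsSimple := by
  intro f hf ⟨v0, hv0⟩
  obtain ⟨a, b, h1⟩ := H.all f hf
  have hpos : (a ^ 2 + d * b ^ 2 : ℚ) ≠ 0 := by
    intro h0
    apply hv0
    have hd := H.pos
    have ha : a ^ 2 = 0 := by nlinarith [sq_nonneg a, sq_nonneg b, mul_nonneg hd.le (sq_nonneg b)]
    have hb : d * b ^ 2 = 0 := by linarith
    have ha' : a = 0 := by simpa using ha
    have hb' : b = 0 := by
      rcases mul_eq_zero.mp hb with h | h
      · exact absurd h hd.ne'
      · simpa using h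
    rw [h1, ha', hb']
    simp
  have hadd : ∀ u v, f (u + v) = f u + f v := hf.linear.map_add
  have hinj : ∀ v, f v = 0 → v = 0 := by
    intro v hv
    have h2 : (a : ℂ) • f v - (b : ℂ) • J (f v) = ((a ^ 2 + d * b ^ 2 : ℚ) : ℂ) • v := by
      rw [h1, H.endo.linear.map_add, H.endo.linear.map_smul, H.endo.linear.map_smul, H.sq]
      push_cast
      module
    rw [hv, H.endo.linear.map_zero, smul_zero, smul_zero, sub_zero] at h2
    exact (smul_eq_zero.mp h2.symm).resolve_left (by exact_mod_cast hpos)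
  intro u v huv
  rw [← sub_eq_zero]
  apply hinj
  have h3 : f (u - v) = f u - f v := hf.linear.map_sub u v
  rw [h3, huv, sub_self]

include H in
/-- the endomorphism algebra as CM field of degree two -/
theorem exists_cm (hg : 0 < A.g) :
    ∃ (K : Type) (_ : Field K) (_ : NumberField K) (_ : NumberField.IsCMField K)
      (ρ : K → A.H1 → A.H1) (x : K), A.IsHermMult K ρ ∧ finrank ℚ K = 2 ∧ ∀ v, ρ x v = J v := by
  obtain ⟨v0, hv0⟩ : ∃ v : A.H1, v ≠ 0 := by
    refine ⟨fun s => 1, fun h => ?_⟩
    have h1 := congrFun h (Sum.inl ⟨0, hg⟩)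
    simp at h1
  have hinjx : ∀ {K : Type} [Field K] (ρ : K →+* Module.End ℂ A.H1) (x : K),
      (∀ v, ρ x v = 0) → x = 0 := by
    intro K _ ρ x h
    by_contra hx
    have h1 : ρ x⁻¹ (ρ x v0) = v0 := by
      rw [← Module.End.mul_apply, ← map_mul, inv_mul_cancel₀ hx, map_one]; rfl
    rw [h, map_zero] at h1
    exact hv0 h1.symm
  obtain ⟨K, hK1, hK2, hcase⟩ := simple_cases A H.isSimple
  rcases hcase with ⟨hr, ⟨C⟩⟩ | ⟨hCM, ρ, C⟩ | ⟨hCM, ρ, j, b, C⟩
  · exfalso
    obtain ⟨x, hx⟩ := C.centralizer J H.endo (fun x v => H.comm H.endo (C.endo x) v)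
    obtain ⟨R, hR⟩ : ∃ R : K →+* Module.End ℂ A.H1, ∀ x v, R x v = C.ρ x v :=
      ⟨mkRho C.ρ C.one C.mul C.add C.endo, fun _ _ => rfl⟩
    have h1 : x ^ 2 + (d : K) = 0 := by
      apply hinjx R
      intro v
      have h2 : R ((d : K)) v = (d : ℂ) • v := by
        have h3 : R (d : K) = (algebraMap ℚ (Module.End ℂ A.H1)) d := by
          rw [← RingHom.congr_fun (Subsingleton.elim (R.comp (algebraMap ℚ K))
            (algebraMap ℚ (Module.End ℂ A.H1))) d]
          rfl
        rw [h3, Module.algebraMap_end_apply]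
        exact (Rat.cast_smul_eq_qsmul ℂ d v).symm
      rw [map_add, LinearMap.add_apply, map_pow, pow_two, Module.End.mul_apply, h2, hR, hR, ← hx,
        ← hx, H.sq]
      module
    obtain ⟨σ⟩ : Nonempty (K →+* ℂ) := inferInstance
    have h2 : (σ x) ^ 2 = -(d : ℂ) := by
      have h3 := congrArg σ h1
      rw [map_add, map_pow, map_zero, map_ratCast] at h3
      linear_combination h3
    have h4 : starRingEnd ℂ (σ x) = σ x := by
      have h5 : ComplexEmbedding.IsReal σ := by
        have := IsTotallyReal.isReal (K := K) (InfinitePlace.mk σ)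
        rwa [InfinitePlace.isReal_mk_iff] at this
      have h6 := ComplexEmbedding.isReal_iff.mp h5
      have h7 := congrArg (fun τ : K →+* ℂ => τ x) h6
      exact h7
    have h5 := conj_of_sq H.pos h2
    rw [h4] at h5
    have h6 : σ x = 0 := by
      have : (2 : ℂ) * σ x = 0 := by linear_combination h5
      exact (mul_eq_zero.mp this).resolve_left two_ne_zero
    rw [h6] at h2
    have h7 : (d : ℂ) = 0 := by linear_combination h2
    exact H.pos.ne' (by exact_mod_cast h7)
  · obtain ⟨x, hx⟩ := C.centralizer J H.endo (fun x _ v => H.comm H.endo (C.endo x) v)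
    refine ⟨K, hK1, hK2, hCM, ρ, x, C, ?_, fun v => (hx v).symm⟩
    obtain ⟨R, hR⟩ : ∃ R : K →+* Module.End ℂ A.H1, ∀ x v, R x v = ρ x v :=
      ⟨mkRho ρ C.one C.mul C.add C.endo, fun _ _ => rfl⟩
    have hrat : ∀ (q : ℚ) v, R (q : K) v = (q : ℂ) • v := by
      intro q v
      have h3 : R (q : K) = (algebraMap ℚ (Module.End ℂ A.H1)) q := by
        rw [← RingHom.congr_fun (Subsingleton.elim (R.comp (algebraMap ℚ K))
          (algebraMap ℚ (Module.End ℂ A.H1))) q]
        rfl
      rw [h3, Module.algebraMap_end_apply]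
      exact (Rat.cast_smul_eq_qsmul ℂ q v).symm
    have hgen : ∀ y : K, ∃ a b : ℚ, y = a + b * x := by
      intro y
      obtain ⟨a, b, hab⟩ := H.all (ρ y) (C.endo y)
      refine ⟨a, b, ?_⟩
      rw [← sub_eq_zero]
      apply hinjx R
      intro v
      rw [map_sub, LinearMap.sub_apply, map_add, LinearMap.add_apply, map_mul,
        Module.End.mul_apply, hrat, hrat, hR, hR, hab, hx]
      module
    obtain ⟨y, hy⟩ : ∃ y : K, IsCMField.complexConj K y ≠ y := by
      by_contra hcon
      push Not at hcon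
      exact IsCMField.complexConj_ne_one K (AlgEquiv.ext hcon)
    have hli : LinearIndependent ℚ ![(1 : K), x] := by
      rw [LinearIndependent.pair_iff]
      intro s t hst
      have h1 : (s : K) + (t : K) * x = 0 := by simpa [Algebra.smul_def] using hst
      have ht : t = 0 := by
        by_contra ht
        obtain ⟨a, b, hab⟩ := hgen y
        apply hy
        have h2 : x = ((-s / t : ℚ) : K) := by
          have ht' : (t : K) ≠ 0 := by exact_mod_cast ht
          push_cast
          field_simp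
          linear_combination h1
        have h3 : y = ((a + b * (-s / t) : ℚ) : K) := by
          rw [hab, h2]; push_cast; ring
        rw [h3]
        exact map_ratCast _ _
      refine ⟨?_, ht⟩
      rw [ht, Rat.cast_zero, zero_mul, add_zero] at h1
      exact_mod_cast h1
    have hspan : Submodule.span ℚ (Set.range ![(1 : K), x]) = ⊤ := by
      rw [eq_top_iff]
      intro y _
      obtain ⟨a, b, hab⟩ := hgen y
      rw [Submodule.mem_span_range_iff_exists_fun]
      refine ⟨![a, b], ?_⟩
      rw [Fin.sum_univ_two, hab]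
      simp [Algebra.smul_def]
    have h5 := finrank_eq_card_basis (Basis.mk hli hspan.ge)
    rw [h5, Fintype.card_fin]
  · exfalso
    obtain ⟨R, hR⟩ : ∃ R : K →+* Module.End ℂ A.H1, ∀ x v, R x v = ρ x v :=
      ⟨mkRho ρ C.one C.mul C.add C.endo, fun _ _ => rfl⟩
    obtain ⟨y, hy⟩ : ∃ y : K, IsCMField.complexConj K y ≠ y := by
      by_contra hcon
      push Not at hcon
      exact IsCMField.complexConj_ne_one K (AlgEquiv.ext hcon)
    have hy' : cmConj K y - y ≠ 0 := sub_ne_zero.mpr hy
    have hj0 : ∀ v, j v = 0 := by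
      intro v
      have h1 := C.conj_j y v
      rw [H.comm C.endo_j (C.endo y)] at h1
      have h2 : R (cmConj K y - y) (j v) = 0 := by
        rw [map_sub, LinearMap.sub_apply, hR, hR, ← h1, sub_self]
      have h3 : R (cmConj K y - y)⁻¹ (R (cmConj K y - y) (j v)) = j v := by
        rw [← Module.End.mul_apply, ← map_mul, inv_mul_cancel₀ hy', map_one]; rfl
      rw [h2, map_zero] at h3
      exact h3.symm
    apply C.ne_zero
    apply hinjx R
    intro v
    rw [hR, ← C.sq_j, hj0]

end AbVar.IsQuadBy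

end Pool.Agent.GPC
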