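import Pool.Agent.Helper7.AF.Defs

/-!
All powers of abelian fourfolds of Weil type: definitions.
-/

namespace Pool.Agent.Helper7

/-- products of bilinear forms and of forms of degree four -/
inductive PQ {R W : Type*} [DecidableEq R] [AddCommGroup W] [Module ℂ W]
    (𝓑 : Set (W →ₗ[ℂ] W →ₗ[ℂ] ℂ)) (𝓓 : Set (MultilinearMap ℂ (fun _ : Fin 4 => W) ℂ)) :
    Finset R → ((R → W) → ℂ) → Prop
  | nil : PQ 𝓑 𝓓 ∅ (fun _ => 1)
  | pair {T : Finset R} {Φ : (R → W) → ℂ} (r r' : R) (β : W →ₗ[ℂ] W →ₗ[ℂ] ℂ) : β ∈ 𝓑 →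
      PQ 𝓑 𝓓 T Φ → r ∉ T → r' ∉ T → r ≠ r' →
      PQ 𝓑 𝓓 (insert r (insert r' T)) (fun v => β (v r) (v r') * Φ v)
  | quad {T : Finset R} {Φ : (R → W) → ℂ} (e : Fin 4 → R)
      (D : MultilinearMap ℂ (fun _ : Fin 4 => W) ℂ) : D ∈ 𝓓 →
      PQ 𝓑 𝓓 T Φ → Function.Injective e → (∀ j, e j ∉ T) →
      PQ 𝓑 𝓓 (Finset.univ.image e ∪ T) (fun v => D (fun j => v (e j)) * Φ v)

end Pool.Agent.Helper7

namespace Pool.Agent.GPC

open Module

section powers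

variable (A : AbVar)

/-- `w` is a Weil class of the fourfold `A` for the imaginary quadratic field `ℚ(J)`, and a
Grothendieck class. -/
def AbVar.IsGrWeil (J : A.H1 → A.H1) (w : A.H1 [⋀^Fin 4]→ₗ[ℂ] ℂ) : Prop :=
  (∀ v r s, w (Function.update v r (J (v r))) = w (Function.update v s (J (v s)))) ∧
  (∀ v : Fin 4 → A.H1, (∀ r, A.IsBetti (v r)) →
    ∃ c : ℚ, w v = (2 * Real.pi * Complex.I) ^ 2 * c) ∧
  ∀ v : Fin 4 → A.H1, (∀ r, A.IsDeRham (v r)) → IsAlgebraic ℚ (w v)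

/-- The (anti-symmetrised) product of `p` bilinear forms and `q` forms of degree four. -/
noncomputable def mixedProd {W : Type*} {p q N : ℕ} (ε : (Fin p × Fin 2) ⊕ (Fin q × Fin 4) ≃ Fin N)
    (b : Fin p → W → W → ℂ) (w : Fin q → (Fin 4 → W) → ℂ) (v : Fin N → W) : ℂ :=
  ∑ π : Equiv.Perm ((Fin p × Fin 2) ⊕ (Fin q × Fin 4)), ((Equiv.Perm.sign π : ℤ) : ℂ) *
    ((∏ a, b a (v (ε (π (.inl (a, 0))))) (v (ε (π (.inl (a, 1)))))) *
      ∏ c, w c (fun j => v (ε (π (.inr (c, j))))))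

/-- `α` is a rational combination of products of pull-backs of the polarisation and of Grothendieck
Weil classes of `A` under homomorphisms `A^n → A` (tensor `ℚ`). -/
def IsDivWeilPow (n : ℕ) (J : A.H1 → A.H1) (k : ℕ)
    (α : Form (fun _ : Unit => A) (fun _ => n) (2 * k)) : Prop :=
  ∃ (N : ℕ) (c : Fin N → ℚ) (p q : Fin N → ℕ)
    (ε : ∀ j, (Fin (p j) × Fin 2) ⊕ (Fin (q j) × Fin 4) ≃ Fin (2 * k))
    (h : ∀ j, Fin (p j) → H1 (fun _ : Unit => A) (fun _ => n) → A.H1)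
    (g : ∀ j, Fin (q j) → H1 (fun _ : Unit => A) (fun _ => n) → A.H1)
    (w : ∀ j, Fin (q j) → A.H1 [⋀^Fin 4]→ₗ[ℂ] ℂ),
    (∀ j a, IsHom (fun _ : Unit => A) (fun _ => n) () (h j a)) ∧
    (∀ j a, IsHom (fun _ : Unit => A) (fun _ => n) () (g j a)) ∧
    (∀ j a, A.IsGrWeil J (w j a)) ∧
    ∀ v, α v = ∑ j, (c j : ℂ) * mixedProd (ε j) (fun a u v => A.pol (h j a u) (h j a v))
      (fun b u => w j b (fun r => g j b (u r))) v

end powers

end Pool.Agent.GPC
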