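import Pool.Agent.Helper7.W4.Extract2
import Pool.Agent.Helper7.W4.Quad

/-!
A Grothendieck class on a power of an abelian fourfold with imaginary quadratic endomorphism algebra
which is not killed by `J` gives a Grothendieck Weil class.
-/

namespace Pool.Agent.GPC

open Module NumberField Pool.Agent.Helper7 Pool.Agent.Helper24

set_option linter.unusedSectionVars false

theorem exists_weil_of_unbalanced0 (A : AbVar) (hg : A.g = 4) (d : ℚ) (J : A.H1 → A.H1)
    (H : A.IsQuadBy d J) (n k : ℕ) (α : Form (fun _ : Unit => A) (fun _ => n) (2 * k))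
    (hα : IsGrothendieck (fun _ : Unit => A) (fun _ => n) k α)
    (hJα : ¬ ∀ v : Fin (2 * k) → H1 (fun _ : Unit => A) (fun _ => n),
      ∑ r, α (Function.update v r (fun i j => J (v r i j))) = 0) :
    ∃ w : A.H1 [⋀^Fin 4]→ₗ[ℂ] ℂ, w ≠ 0 ∧ A.IsGrWeil J w := by
  classical
  obtain ⟨hα1, hα2⟩ := id hα
  obtain ⟨K, _, _, hCM, ρ, x, C, h2, hx⟩ := H.exists_cm (by omega)
  obtain ⟨F, hF, -⟩ := nonempty_UFh A K ρ C 4 (by rw [h2, hg])
  have hFx : ∀ v, F.ρ x v = J v := fun v => by rw [hF, hx]
  obtain ⟨σ⟩ : Nonempty (K →+* ℂ) := inferInstance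
  obtain ⟨z, hz⟩ : ∃ z, z = σ x := ⟨_, rfl⟩
  have hzd : z ^ 2 = -(d : ℂ) := by
    have h1 := H.sq (F.e σ 0)
    rw [← hFx, ← hFx, F.rho_e, map_smul, F.rho_e, smul_smul, ← sub_eq_zero, ← sub_smul,
      smul_eq_zero] at h1
    rw [hz, pow_two]
    exact sub_eq_zero.mp (h1.resolve_right (Pool.Agent.Helper24.e_ne F σ 0))
  have hzc := conj_of_sq H.pos hzd
  have hx' : ComplexEmbedding.conjugate σ x = -z := by
    rw [ComplexEmbedding.conjugate_coe_eq, ← hz, hzc]
  have hϖ := Complex.two_pi_I_ne_zero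
  have hne' : ComplexEmbedding.conjugate σ ≠ σ := fun hν =>
    IsTotallyComplex.complexEmbedding_not_isReal σ (ComplexEmbedding.isReal_iff.mpr hν)
  have hσ : ∀ σ', σ' = σ ∨ σ' = ComplexEmbedding.conjugate σ :=
    fun σ' => Pool.Agent.Helper24.emb_two h2 σ σ'
  have cc : ComplexEmbedding.conjugate (ComplexEmbedding.conjugate σ) = σ := by
    ext t
    rw [ComplexEmbedding.conjugate_coe_eq, ComplexEmbedding.conjugate_coe_eq, Complex.conj_conj]
  have hQB : ∀ v : HW (fun _ : Unit => Fin A.g ⊕ Fin A.g) (fun _ => n),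
      IsRatP (fun _ => n) (fun _ => pData A) v → IsBetti (fun _ : Unit => A) (fun _ => n) v :=
    fun v hv i m => (mem_pData_Q _ _).mp (hv i m)
  have hsimple : ∀ f, IsDRB (pData A) (pData A) f → ∃ x, ∀ v, f v = F.ρ x v := fun f hf => by
    obtain ⟨a, b, hab⟩ := H.all f (isEnd_of_isDRB A f hf)
    refine ⟨a + b * x, fun v => ?_⟩
    have hrat : ∀ (q : ℚ) v, F.ρ (q : K) v = (q : ℂ) • v := by
      intro q v
      have h3 : F.ρ (q : K) = (algebraMap ℚ (Module.End ℂ A.H1)) q := by
        rw [← RingHom.congr_fun (Subsingleton.elim (F.ρ.comp (algebraMap ℚ K))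
          (algebraMap ℚ (Module.End ℂ A.H1))) q]
        rfl
      rw [h3, Module.algebraMap_end_apply]
      exact (Rat.cast_smul_eq_qsmul ℂ q v).symm
    rw [map_add, map_mul, LinearMap.add_apply, Module.End.mul_apply, hrat, hrat, hFx, hab]
  have hB : ∀ v : Fin (2 * k) → HW (fun _ : Unit => Fin A.g ⊕ Fin A.g) (fun _ => n),
      (∀ r, IsRatP (fun _ => n) (fun _ => pData A) (v r)) →
      ∃ q : ℚ, α v = (2 * Real.pi * Complex.I) ^ k * q :=
    fun v hv => hα2 v (fun r => hQB _ (hv r))
  -- the derivation on the labelled components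
  obtain ⟨E, hE⟩ : ∃ E : At (fun _ : Unit => n) (fun _ : Unit => K) →
      Module.End ℂ (HW (fun _ : Unit => Fin A.g ⊕ Fin A.g) (fun _ => n)),
      E = Helper24.EE (fun _ => n) (fun _ => pData A) (fun _ : Unit => F) := ⟨_, rfl⟩
  have hEJ : ∀ t (u : HW (fun _ : Unit => Fin A.g ⊕ Fin A.g) (fun _ => n)),
      E t (fun i j => J (u i j)) = t.2.2 x • E t u := by
    intro t u
    rw [hE, Helper24.EE_apply, Helper24.EE_apply, ← map_smul]
    congr 1
    show proj F.ρ t.2.2 (J (u () t.2.1)) = t.2.2 x • proj F.ρ t.2.2 (u () t.2.1)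
    rw [← hFx, F.proj_rho]
  have hder : ∀ v : Fin (2 * k) → HW (fun _ : Unit => Fin A.g ⊕ Fin A.g) (fun _ => n),
      ∑ r, α (Function.update v r (fun i j => J (v r i j))) =
      ∑ t : Fin (2 * k) → At (fun _ : Unit => n) (fun _ : Unit => K),
        (∑ r, (t r).2.2 x) * α (fun r => E (t r) (v r)) := by
    intro v
    have h1 : ∀ r, α (Function.update v r (fun i j => J (v r i j))) =
        ∑ t : Fin (2 * k) → At (fun _ : Unit => n) (fun _ : Unit => K),
          (t r).2.2 x * α (fun r => E (t r) (v r)) := by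
      intro r
      have h2 := Helper24.sum_labels (fun _ => n) (fun _ => pData A) (fun _ : Unit => F) α
        (Function.update v r (fun i j => J (v r i j)))
      rw [← hE] at h2
      rw [h2]
      refine Finset.sum_congr rfl fun t _ => ?_
      have h3 : (fun r' => E (t r') (Function.update v r (fun i j => J (v r i j)) r')) =
          Function.update (fun r' => E (t r') (v r')) r ((t r).2.2 x • E (t r) (v r)) := by
        funext r'
        by_cases h : r' = r
        · subst h; rw [Function.update_self, Function.update_self, hEJ]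
        · rw [Function.update_of_ne h, Function.update_of_ne h]
      rw [h3, AlternatingMap.map_update_smul, smul_eq_mul]
      congr 2
      exact Function.update_eq_self r (fun r' => E (t r') (v r'))
    rw [Finset.sum_congr rfl fun r _ => h1 r, Finset.sum_comm]
    refine Finset.sum_congr rfl fun t _ => ?_
    rw [Finset.sum_mul]
  -- an unbalanced label
  obtain ⟨t, v0, ht0, ht1⟩ : ∃ (t : Fin (2 * k) → At (fun _ : Unit => n) (fun _ : Unit => K))
      (v0 : Fin (2 * k) → HW (fun _ : Unit => Fin A.g ⊕ Fin A.g) (fun _ => n)),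
      (∑ r, (t r).2.2 x) ≠ 0 ∧ α (fun r => E (t r) (v0 r)) ≠ 0 := by
    by_contra hcon
    push Not at hcon
    apply hJα
    intro v
    rw [hder]
    refine Finset.sum_eq_zero fun t _ => ?_
    by_cases h : (∑ r, (t r).2.2 x) = 0
    · rw [h, zero_mul]
    · rw [hcon t v h, mul_zero]
  have hlab : ∀ (τ : K →+* ℂ), (∀ σ', σ' = τ ∨ σ' = ComplexEmbedding.conjugate τ) →
      ∃ (mm : Fin (2 * k) → Fin n) (ν : Fin (2 * k) → Bool), ∀ s, t s =
      ⟨(), mm s, if ν s then τ else ComplexEmbedding.conjugate τ⟩ := by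
    intro τ hτ
    have h1 : ∀ s, ∃ p : Fin n × Bool, t s =
        ⟨(), p.1, if p.2 then τ else ComplexEmbedding.conjugate τ⟩ := by
      intro s
      obtain ⟨i, m, ν⟩ := t s
      rcases hτ ν with rfl | rfl
      · exact ⟨(m, true), rfl⟩
      · exact ⟨(m, false), rfl⟩
    choose p hp using h1
    exact ⟨fun s => (p s).1, fun s => (p s).2, hp⟩
  have hsumν : ∀ (τ : K →+* ℂ) (y : ℂ), τ x = y → ComplexEmbedding.conjugate τ x = -y →
      ∀ (mm : Fin (2 * k) → Fin n) (ν : Fin (2 * k) → Bool), (∀ s, t s =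
      ⟨(), mm s, if ν s then τ else ComplexEmbedding.conjugate τ⟩) →
      (∑ r, (t r).2.2 x) = (((Finset.univ.filter (fun s => ν s = true)).card : ℂ) -
        (Finset.univ.filter (fun s => ¬ ν s = true)).card) * y := by
    intro τ y hy hy' mm ν hts
    have h1 : ∀ s, (t s).2.2 x = if ν s = true then y else -y := by
      intro s
      rw [hts s]
      by_cases hν : ν s = true
      · rw [if_pos hν, if_pos hν, hy]
      · rw [if_neg hν, if_neg hν, hy']
    rw [Finset.sum_congr rfl fun s _ => h1 s, Finset.sum_ite, Finset.sum_const, Finset.sum_const,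
      nsmul_eq_mul, nsmul_eq_mul]
    ring
  obtain ⟨mm, ν, hts⟩ := hlab σ hσ
  have hsum := hsumν σ z hz.symm hx' mm ν hts
  rw [hsum] at ht0
  have hcard : (Finset.univ.filter (fun s => ν s = true)).card ≠
      (Finset.univ.filter (fun s => ¬ ν s = true)).card := by
    intro h
    apply ht0
    rw [h, sub_self, zero_mul]
  have hex : ∀ (τ : K →+* ℂ), (∀ σ', σ' = τ ∨ σ' = ComplexEmbedding.conjugate τ) →
      ComplexEmbedding.conjugate τ ≠ τ →
      ∀ (mm : Fin (2 * k) → Fin n) (ν : Fin (2 * k) → Bool), (∀ s, t s =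
      ⟨(), mm s, if ν s then τ else ComplexEmbedding.conjugate τ⟩) →
      (Finset.univ.filter (fun s => ¬ ν s = true)).card <
        (Finset.univ.filter (fun s => ν s = true)).card →
      ∃ w : A.H1 [⋀^Fin 4]→ₗ[ℂ] ℂ, w ≠ 0 ∧ A.IsGrWeil J w := by
    intro τ hτ hτ' mm ν hts hlt
    refine exists_grWeil A K F x J hFx τ hτ hτ' fun v hv => ?_
    refine extract_alg (κ := fun _ : Unit => Fin A.g ⊕ Fin A.g) (fun _ => n)
      (fun _ => pData A) (K := fun _ => K) (fun _ => F) () hϖ τ hτ' hsimple α hB hα1 mm ν v0 ?_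
      hlt v hv
    rw [hE] at ht1
    simp only [hts] at ht1
    exact ht1
  rcases lt_or_gt_of_ne hcard with h | h
  · -- exchange the places
    refine hex (ComplexEmbedding.conjugate σ) (fun σ' => by rw [cc]; exact (hσ σ').symm)
      (by rw [cc]; exact hne'.symm) mm (fun s => !ν s) (fun s => ?_) ?_
    · rw [hts s, cc]
      cases ν s <;> rfl
    · have e1 : (Finset.univ.filter (fun s => ¬ (!ν s) = true)) =
          Finset.univ.filter (fun s => ν s = true) := by
        ext s
        cases hν : ν s <;> simp [hν]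
      have e2 : (Finset.univ.filter (fun s => (!ν s) = true)) =
          Finset.univ.filter (fun s => ¬ ν s = true) := by
        ext s
        cases hν : ν s <;> simp [hν]
      rw [e1, e2]
      exact h
  · exact hex σ hσ hne' mm ν hts h

end Pool.Agent.GPC
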