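import Pool.Agent.Helper7.U.UF

/-!
Algebraicity lemmas: multilinear forms, linear systems, projectors.
-/

namespace Pool.Agent.Helper7

open Module NumberField

section ml

variable {ι : Type*} [Fintype ι] [DecidableEq ι] {W : Type*} [AddCommGroup W] [Module ℂ W]

/-- a multilinear form which vanishes on spanning sets vanishes -/
lemma ml_zero (α : MultilinearMap ℂ (fun _ : ι => W) ℂ) (S : ι → Set W)
    (h : ∀ u : ι → W, (∀ i, u i ∈ S i) → α u = 0) (v : ι → W)
    (hv : ∀ i, v i ∈ Submodule.span ℂ (S i)) : α v = 0 := by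
  have key : ∀ J : Finset ι, ∀ v : ι → W, (∀ i ∈ J, v i ∈ Submodule.span ℂ (S i)) →
      (∀ i, i ∉ J → v i ∈ S i) → α v = 0 := by
    intro J
    induction J using Finset.induction_on with
    | empty => exact fun v _ hv => h v (fun i => hv i (Finset.notMem_empty i))
    | insert a J ha ih =>
      intro v h1 h2
      have h3 : ∀ x ∈ Submodule.span ℂ (S a), α (Function.update v a x) = 0 := by
        intro x hx
        induction hx using Submodule.span_induction with
        | mem x hx =>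
          refine ih _ (fun i hi => ?_) (fun i hi => ?_)
          · have hia : i ≠ a := fun h => ha (h ▸ hi)
            rw [Function.update_of_ne hia]
            exact h1 i (Finset.mem_insert_of_mem hi)
          · by_cases hia : i = a
            · subst hia; rw [Function.update_self]; exact hx
            · rw [Function.update_of_ne hia]
              exact h2 i (by rw [Finset.mem_insert, not_or]; exact ⟨hia, hi⟩)
        | zero => exact α.map_update_zero v a
        | add x y _ _ hx hy => rw [MultilinearMap.map_update_add, hx, hy, add_zero]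
        | smul c x _ hx => rw [MultilinearMap.map_update_smul, hx, smul_zero]
      have h4 := h3 (v a) (h1 a (Finset.mem_insert_self a J))
      rwa [Function.update_eq_self] at h4
  exact key Finset.univ v (fun i _ => hv i) (fun i hi => absurd (Finset.mem_univ i) hi)

/-- algebraic combinations in the arguments of a multilinear form -/
lemma alg_comb {N : Type*} [Fintype N] (α : MultilinearMap ℂ (fun _ : ι => W) ℂ) (c : ℂ)
    (a : ι → N → ℂ) (g : ι → N → W) (ha : ∀ i l, IsAlgebraic ℚ (a i l))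
    (h : ∀ s : ι → N, IsAlgebraic ℚ (c * α (fun i => g i (s i)))) :
    IsAlgebraic ℚ (c * α (fun i => ∑ l, a i l • g i l)) := by
  classical
  rw [α.map_sum (fun i l => a i l • g i l), Finset.mul_sum]
  refine isAlg_sum _ _ fun s _ => ?_
  have h1 : α (fun i => a i (s i) • g i (s i)) = (∏ i, a i (s i)) • α (fun i => g i (s i)) :=
    α.map_smul_univ (fun i => a i (s i)) (fun i => g i (s i))
  rw [h1, smul_eq_mul, mul_left_comm]
  exact (isAlg_prod _ _ fun i _ => ha i (s i)).mul (h s)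

end ml

/-- the solution of a linear system with algebraic coefficients -/
lemma alg_solve {N : Type*} [Fintype N] [DecidableEq N] (g : Matrix N N ℂ)
    (hg : ∀ i j, IsAlgebraic ℚ (g i j)) (hdet : g.det ≠ 0) (s c : N → ℂ)
    (hs : ∀ i, IsAlgebraic ℚ (s i)) (h : ∀ i, ∑ l, g i l * c l = s i) :
    ∀ l, IsAlgebraic ℚ (c l) := by
  obtain ⟨g0, hg0⟩ : ∃ g0 : Matrix N N (algebraicClosure ℚ ℂ),
      g0.map (algebraMap (algebraicClosure ℚ ℂ) ℂ) = g :=
    ⟨fun i j => ⟨g i j, mem_algebraicClosure_iff.mpr (hg i j)⟩, by ext i j; rfl⟩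
  obtain ⟨s0, hs0⟩ : ∃ s0 : N → algebraicClosure ℚ ℂ, ∀ i, ((s0 i : algebraicClosure ℚ ℂ) : ℂ) = s i :=
    ⟨fun i => ⟨s i, mem_algebraicClosure_iff.mpr (hs i)⟩, fun i => rfl⟩
  have hd0 : g0.det ≠ 0 := by
    intro h0
    apply hdet
    rw [← hg0]
    have h1 := RingHom.map_det (algebraMap (algebraicClosure ℚ ℂ) ℂ) g0
    rw [h0, map_zero] at h1
    exact h1.symm
  have hu : IsUnit g0.det := isUnit_iff_ne_zero.mpr hd0
  have hu' : IsUnit g := (Matrix.isUnit_iff_isUnit_det g).mpr (isUnit_iff_ne_zero.mpr hdet)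
  obtain ⟨c0, hc0⟩ : ∃ c0 : N → algebraicClosure ℚ ℂ, g0.mulVec c0 = s0 :=
    ⟨g0⁻¹.mulVec s0, by rw [Matrix.mulVec_mulVec, Matrix.mul_nonsing_inv g0 hu, Matrix.one_mulVec]⟩
  have h2 : g.mulVec (fun l => ((c0 l : algebraicClosure ℚ ℂ) : ℂ)) = g.mulVec c := by
    funext i
    have e1 : g.mulVec c i = s i := h i
    have e2 := congrFun hc0 i
    have e3 := congrArg (algebraMap (algebraicClosure ℚ ℂ) ℂ) e2
    rw [e1, ← hs0]
    change (algebraMap (algebraicClosure ℚ ℂ) ℂ) (g0.mulVec c0 i) = _ at e3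
    rw [Matrix.mulVec, dotProduct, map_sum] at e3
    rw [Matrix.mulVec, dotProduct, ← hg0]
    refine Eq.trans ?_ e3
    exact Finset.sum_congr rfl fun l _ => by rw [map_mul]; rfl
  have h3 : (fun l => ((c0 l : algebraicClosure ℚ ℂ) : ℂ)) = c :=
    Matrix.mulVec_injective_of_isUnit hu' h2
  intro l
  rw [← h3]
  exact mem_algebraicClosure_iff.mp (c0 l).2

section single

variable {κ : Type} [Fintype κ] [DecidableEq κ] {ϖ : ℂ} {P : PData κ ϖ} {K : Type} [Field K]
  [NumberField K] {r : ℕ} (F : UF P K r)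

lemma alg_drb4 {κ' : Type} [Fintype κ'] [DecidableEq κ'] {P' : PData κ' ϖ}
    (f : (κ → ℂ) →ₗ[ℂ] (κ' → ℂ)) (hf : IsDRB P P' f) (u : κ → ℂ)
    (hu : ∀ j, IsAlgebraic ℚ (u j)) (j : κ') : IsAlgebraic ℚ (f u j) := by
  have h1 : u = ∑ i, u i • (Pi.single i (1 : ℂ) : κ → ℂ) := by
    funext j
    rw [Finset.sum_apply, Finset.sum_eq_single j]
    · rw [Pi.smul_apply, Pi.single_eq_same, smul_eq_mul, mul_one]
    · intro b _ hb
      rw [Pi.smul_apply, Pi.single_eq_of_ne (Ne.symm hb), smul_zero]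
    · intro h; exact absurd (Finset.mem_univ _) h
  rw [h1, map_sum, Finset.sum_apply]
  refine isAlg_sum _ _ fun i _ => ?_
  rw [map_smul, Pi.smul_apply, smul_eq_mul]
  exact (hu i).mul (hf.alg i j)

lemma alg_proj4 (σ : K →+* ℂ) (u : κ → ℂ) (hu : ∀ j, IsAlgebraic ℚ (u j)) (j : κ) :
    IsAlgebraic ℚ (proj F.ρ σ u j) := by
  rw [proj, LinearMap.sum_apply, Finset.sum_apply]
  refine isAlg_sum _ _ fun b _ => ?_
  rw [LinearMap.smul_apply, Pi.smul_apply, smul_eq_mul]
  exact (isAlg_emb σ _).mul (alg_drb4 _ (F.hρ _) u hu j)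

lemma alg_psi4 (u v : κ → ℂ) (hu : ∀ j, IsAlgebraic ℚ (u j)) (hv : ∀ j, IsAlgebraic ℚ (v j)) :
    IsAlgebraic ℚ (P.ψ u v) := by
  have h1 : ∀ u : κ → ℂ, u = ∑ i, u i • (Pi.single i (1 : ℂ) : κ → ℂ) := by
    intro u
    funext j
    rw [Finset.sum_apply, Finset.sum_eq_single j]
    · rw [Pi.smul_apply, Pi.single_eq_same, smul_eq_mul, mul_one]
    · intro b _ hb
      rw [Pi.smul_apply, Pi.single_eq_of_ne (Ne.symm hb), smul_zero]
    · intro h; exact absurd (Finset.mem_univ _) h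
  rw [h1 u, h1 v, map_sum]
  refine isAlg_sum _ _ fun j _ => ?_
  rw [map_smul, smul_eq_mul, map_sum, LinearMap.sum_apply]
  refine (hv j).mul (isAlg_sum _ _ fun i _ => ?_)
  rw [map_smul, LinearMap.smul_apply, smul_eq_mul]
  exact (hu i).mul (P.hψalg i j)

/-- the pairing of adapted vectors -/
lemma alg_psi_e4 (hϖ : ϖ ≠ 0) (σ τ : K →+* ℂ) (i j : Fin r) :
    IsAlgebraic ℚ (ϖ⁻¹ * P.ψ (F.e σ i) (F.e τ j)) := by
  have h1 : ∀ (ν : K →+* ℂ) l, F.e ν l = ∑ b, ν (dbas K b) • F.ρ (bas K b) (F.lam l) := by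
    intro ν l
    rw [F.e_eq, proj, LinearMap.sum_apply]
    rfl
  rw [h1, h1, map_sum, Finset.mul_sum]
  refine isAlg_sum _ _ fun b _ => ?_
  rw [map_smul, smul_eq_mul, map_sum, LinearMap.sum_apply, mul_left_comm, Finset.mul_sum]
  refine (isAlg_emb τ _).mul (isAlg_sum _ _ fun b' _ => ?_)
  rw [map_smul, LinearMap.smul_apply, smul_eq_mul, mul_left_comm]
  refine (isAlg_emb σ _).mul ?_
  obtain ⟨q, hq⟩ := P.hψQ _ ((F.hρ (bas K b')).rat _ (F.lam_rat i)) _
    ((F.hρ (bas K b)).rat _ (F.lam_rat j))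
  rw [hq, inv_mul_cancel_left₀ hϖ]
  exact isAlgebraic_algebraMap (A := ℂ) q

end single

end Pool.Agent.Helper7
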