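import Pool.Agent.Helper24.PT.UPair
import Pool.Agent.Helper7.AF.Q31b
import Pool.Agent.Helper7.Family3

/-!
One factor of rank four over an imaginary quadratic field, with a Weil class: the weights vanish
and the eigenspaces are not self-dual.
-/

namespace Pool.Agent.Helper24

open Module NumberField LieAlgebra Pool.Agent.Helper7

attribute [local instance 100] LieRing.ofAssociativeRing

open Pool.Agent.GPC (Emb IsOdd IsOddModule translate)
open Pool.Agent.Helper8 (ML2 Inv2 exists_linear)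

set_option linter.unusedSectionVars false

section single

variable {κ : Type} [Fintype κ] [DecidableEq κ] {ϖ : ℂ} {P : PData κ ϖ} {K : Type} [Field K]
  [NumberField K] {r : ℕ} (F : UF P K r)

/-- a rational form on which `J` acts in one slot as a scalar whose square is negative rational -/
lemma rat_zero1 {ι : Type} [Fintype ι] [DecidableEq ι] (w : (κ → ℂ) [⋀^ι]→ₗ[ℂ] ℂ) (c : ℂ)
    (hc : c ≠ 0)
    (hB : ∀ v : ι → (κ → ℂ), (∀ r, v r ∈ P.Q) → ∃ q : ℚ, w v = c * q)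
    (J : Module.End ℂ (κ → ℂ)) (hJQ : ∀ u ∈ P.Q, J u ∈ P.Q) (z : ℂ) (d : ℚ)
    (hd : 0 < d) (hzd : z ^ 2 = -(d : ℂ)) (r0 : ι)
    (hneg : ∀ v, w (Function.update v r0 (J (v r0))) = -z * w v) : w = 0 := by
  refine Basis.ext_alternating P.bB fun v _ => ?_
  obtain ⟨u, hu⟩ : ∃ u : ι → (κ → ℂ), u = fun i => P.bB (v i) := ⟨_, rfl⟩
  rw [← hu]
  have hur : ∀ r, u r ∈ P.Q := fun r => by rw [hu]; exact P.basis_mem _
  obtain ⟨q, hq⟩ := hB u hur
  obtain ⟨q', hq'⟩ := hB (Function.update u r0 (J (u r0))) (fun r => by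
    by_cases h : r = r0
    · subst h; rw [Function.update_self]; exact hJQ _ (hur r)
    · rw [Function.update_of_ne h]; exact hur r)
  rw [hneg, hq] at hq'
  have h1 : (q' : ℂ) = -z * q := by
    apply mul_left_cancel₀ hc
    rw [← hq']; ring
  have h2 : ((q' ^ 2 + d * q ^ 2 : ℚ) : ℂ) = 0 := by
    push_cast
    rw [h1]
    linear_combination (q : ℂ) ^ 2 * hzd
  have h3 : q' ^ 2 + d * q ^ 2 = 0 := by exact_mod_cast h2
  have h4 : q = 0 := by
    by_contra h0
    have h5 : 0 < q ^ 2 := by positivity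
    have h6 : 0 < d * q ^ 2 := mul_pos hd h5
    nlinarith [sq_nonneg q']
  rw [hq, h4]
  simp

variable {z : ℂ} (hz : z ≠ 0) (x : K) (σ : K →+* ℂ)
  (hσ : ∀ σ', σ' = σ ∨ σ' = ComplexEmbedding.conjugate σ)
  (hx : σ x = z) (hx' : ComplexEmbedding.conjugate σ x = -z)

include hz hσ hx hx' in
lemma prJ_eq (u : κ → ℂ) : prJ (F.ρ x) z u = proj F.ρ σ u := by
  classical
  have hcc : ComplexEmbedding.conjugate σ ≠ σ := by
    intro h
    rw [h, hx] at hx'
    apply hz
    have h2 : (2 : ℂ) * z = 0 := by linear_combination hx'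
    exact (mul_eq_zero.mp h2).resolve_left two_ne_zero
  have hJ : ∀ ν : K →+* ℂ, F.ρ x (proj F.ρ ν u) = ν x • proj F.ρ ν u := fun ν => by
    rw [← Module.End.mul_apply, rho_mul_proj, LinearMap.smul_apply]
  conv_lhs => rw [sum_proj_apply F.ρ u, map_sum]
  rw [Finset.sum_eq_single σ]
  · exact prJ_of_eigen hz (by rw [hJ, hx])
  · intro ν _ hν
    rcases hσ ν with rfl | rfl
    · exact absurd rfl hν
    · exact prJ_of_eigen' hz (by rw [hJ, hx'])
  · intro h; exact absurd (Finset.mem_univ _) h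

variable (hJJ : ∀ u, F.ρ x (F.ρ x u) = z ^ 2 • u) (d : ℚ) (hd : 0 < d) (hzd : z ^ 2 = -(d : ℂ))
  {ι : Type} [Fintype ι] [DecidableEq ι] (w : (κ → ℂ) [⋀^ι]→ₗ[ℂ] ℂ)
  (hbal : ∀ v r s, w (Function.update v r (F.ρ x (v r))) =
    w (Function.update v s (F.ρ x (v s))))
  (hw0 : w ≠ 0) (c : ℂ) (hc : c ≠ 0)
  (hBw : ∀ v : ι → (κ → ℂ), (∀ r, v r ∈ P.Q) → ∃ q : ℚ, w v = c * q)
  (ε : ι ≃ Fin r)

include hz hσ hx hx' hJJ hd hzd hbal hw0 hc hBw in
/-- a non-zero balanced rational form does not vanish on the vectors of a place -/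
lemma weil_ne1 (r0 : ι) : w (fun s => F.e σ (ε s)) ≠ 0 := by
  intro h0
  apply hw0
  have : Nonempty ι := ⟨r0⟩
  refine rat_zero1 w c hc hBw (F.ρ x) (fun u hu => (F.hρ x).rat u hu) z d hd hzd r0
    (fun v => bal_neg hz hJJ w hbal
    (fun v hv => alt_span_zero w _ h0 v (fun s => ?_)) v r0)
  have h1 := prJ_eq F hz x σ hσ hx hx' (v s)
  rw [prJ_of_eigen hz (hv s)] at h1
  rw [h1, F.proj_eq]
  refine Submodule.sum_mem _ fun j _ => Submodule.smul_mem _ _ (Submodule.subset_span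
    ⟨ε.symm j, ?_⟩)
  simp only [Equiv.apply_symm_apply]

end single

section family

variable {I : Type} [Fintype I] [DecidableEq I] (n : I → ℕ)
  {κ : I → Type} [∀ i, Fintype (κ i)] [∀ i, DecidableEq (κ i)] {ϖ : ℂ}
  (P : ∀ i, PData (κ i) ϖ)
  {K : I → Type} [∀ i, Field (K i)] [∀ i, NumberField (K i)] {r : I → ℕ}
  (F : ∀ i, UF (P i) (K i) (r i))

/-- the pull-back of a form from one copy of a factor -/
noncomputable def pullW {ι : Type} (i : I) (m : Fin (n i)) (w : (κ i → ℂ) [⋀^ι]→ₗ[ℂ] ℂ) :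
    (HW κ n) [⋀^ι]→ₗ[ℂ] ℂ := w.compLinearMap (prL n i m)

lemma pullW_apply {ι : Type} (i : I) (m : Fin (n i)) (w : (κ i → ℂ) [⋀^ι]→ₗ[ℂ] ℂ)
    (v : ι → HW κ n) : pullW n i m w v = w (fun s => v s i m) := rfl

lemma slotL_at (i : I) (m : Fin (n i)) (u : κ i → ℂ) : (slotL n i m u) i m = u :=
  prL_slotL n i m u

/-- the multiplier of the pull-back of a balanced rational form is the weight -/
lemma pull_mult {ι : Type} [Fintype ι] [DecidableEq ι] {l : ℕ}
    (M : MultilinearMap ℂ (fun _ : Fin (2 * l) => HW κ n) ℂ) (hr : ∀ i, 0 < r i)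
    (i : I) (m : Fin (n i)) (w : (κ i → ℂ) [⋀^ι]→ₗ[ℂ] ℂ) (σ : K i →+* ℂ) (ε : ι ≃ Fin (r i))
    (hw : w (fun s => (F i).e σ (ε s)) ≠ 0) (X : GG κ) (hX : IsInv n P M X) (b : ℂ)
    (hb : actForm (lift n X.1) (pullW n i m w : MultilinearMap ℂ (fun _ : ι => HW κ n) ℂ) = b •
      (pullW n i m w : MultilinearMap ℂ (fun _ : ι => HW κ n) ℂ)) :
    b = r i * ch P F ⟨i, σ⟩ X := by
  have h1 := eigen_trace ε (pullW n i m w) (fun j => slotL n i m ((F i).e σ j)) (lift n X.1)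
    (fun s t => (F i).co σ s (X.1 i ((F i).e σ t))) (fun t => by
      rw [lift_slot, comm_e (F i) (X.1 i) (commK n P F M hX i) σ t, map_sum]
      refine Finset.sum_congr rfl fun s _ => ?_
      rw [map_smul, ← comm_e (F i) (X.1 i) (commK n P F M hX i) σ t]) b hb (by
      rw [pullW_apply]
      simp only [slotL_at]
      exact hw)
  rw [h1]
  have h2 : ch P F ⟨i, σ⟩ X = (∑ j, (F i).co σ j (X.1 i ((F i).e σ j))) / r i := rfl
  have h3 : (r i : ℂ) ≠ 0 := by exact_mod_cast (hr i).ne'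
  rw [h2, mul_div_cancel₀ _ h3]

variable {l : ℕ} (M : MultilinearMap ℂ (fun _ : Fin (2 * l) => HW κ n) ℂ)
  (hϖ : ϖ ≠ 0)
  (hB : ∀ v : Fin (2 * l) → HW κ n, (∀ r, IsRatP n P (v r)) → ∃ q : ℚ, M v = ϖ ^ l * q)
  (hA : ∀ v : Fin (2 * l) → HW κ n, (∀ r i m j, IsAlgebraic ℚ (v r i m j)) →
      IsAlgebraic ℚ (M v))

include hϖ hB hA in
/-- an eigenspace with vanishing weights is not self-dual if all endomorphisms are in the field -/
theorem not_self_dual (hr : ∀ i, 0 < r i) (s : Emb K)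
    (hs : ComplexEmbedding.conjugate s.2 ≠ s.2)
    (hw : ∀ X, IsInv n P M X → 2 * ch P F s X = X.2)
    (hsimple : ∀ f, IsDRB (P s.1) (P s.1) f → ∃ x, ∀ v, f v = (F s.1).ρ x v)
    (f : Vs n P F M s → Vs n P F M s → ℂ) (hf : ML2 f) (hI : Inv2 (LL n P F M) f)
    (x : Vs n P F M s) (y : Vs n P F M s) : f x y = 0 := by
  obtain ⟨β, hβ⟩ := exists_linear hf
  obtain ⟨m, c, g, hg, hβg⟩ := bilin_of_inv n P M hϖ hB hA s.1 s.1
    (β.compl₁₂ (toVs n P F M s) (toVs n P F M s)) (by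
      intro X hX u v
      simp only [LinearMap.compl₁₂_apply]
      rw [toVs_act n P F M X hX s u, toVs_act n P F M X hX s v]
      simp only [map_add, map_smul, LinearMap.add_apply, LinearMap.smul_apply, smul_eq_mul]
      simp only [hβ]
      have h1 := hI (elL n P F M X hX) (toVs n P F M s u) (toVs n P F M s v)
      linear_combination h1 + f (toVs n P F M s u) (toVs n P F M s v) * hw X hX)
  simp only [LinearMap.compl₁₂_apply] at hβg
  have hval : f x y = ∑ l, c l * (P s.1).ψ (g l ((x : MM κ) s.1)) ((y : MM κ) s.1) := by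
    rw [← hβg]
    have h1 : toVs n P F M s ((x : MM κ) s.1) = x := toVs_ofVs n P F M s x
    have h2 : toVs n P F M s ((y : MM κ) s.1) = y := toVs_ofVs n P F M s y
    rw [h1, h2, hβ]
  rw [hval]
  refine Finset.sum_eq_zero fun l _ => ?_
  obtain ⟨z, hz⟩ := hsimple (g l) (hg l)
  have hx : proj (F s.1).ρ s.2 ((x : MM κ) s.1) = (x : MM κ) s.1 := Vs_proj n P F M s x
  have hy : proj (F s.1).ρ s.2 ((y : MM κ) s.1) = (y : MM κ) s.1 := Vs_proj n P F M s y
  rw [hz, ← hx, ← hy, ← Module.End.mul_apply, rho_mul_proj, LinearMap.smul_apply, map_smul,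
    LinearMap.smul_apply, psi_proj (F s.1) s.2 s.2 _ _ (Ne.symm hs), smul_zero, mul_zero]

end family

end Pool.Agent.Helper24
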