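import Pool.Agent.Helper7.W4.Quad
import Pool.Agent.Helper7.W4.Weights
import Pool.Agent.Helper7.W4.Defs

/-!
The Weil classes of an abelian fourfold with an imaginary quadratic field of endomorphisms: if one
non-zero Weil class is a Grothendieck class, then the Grothendieck Weil classes span all balanced
forms.
-/

namespace Pool.Agent.GPC

open Module NumberField Pool.Agent.Helper7 Pool.Agent.Helper24

set_option linter.unusedSectionVars false

section

variable {A : AbVar} {d : ℚ} {J : A.H1 → A.H1}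

/-- the pull-back of a Grothendieck Weil class under an endomorphism `a + J` -/
lemma isGrWeil_comp (H : A.IsQuadBy d J) {w : A.H1 [⋀^Fin 4]→ₗ[ℂ] ℂ} (hG : A.IsGrWeil J w) (a : ℚ)
    (L : A.H1 →ₗ[ℂ] A.H1) (hL : ∀ v, L v = (a : ℂ) • v + J v) : A.IsGrWeil J (w.compLinearMap L) := by
  have hcomm : ∀ v, L (J v) = J (L v) := by
    intro v
    rw [hL, hL, H.endo.linear.map_add, H.endo.linear.map_smul]
  have hupd : ∀ (v : Fin 4 → A.H1) r, (fun s => L (Function.update v r (J (v r)) s)) =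
      Function.update (fun s => L (v s)) r (J (L (v r))) := by
    intro v r
    funext s
    by_cases hs : s = r
    · subst hs; rw [Function.update_self, Function.update_self, hcomm]
    · rw [Function.update_of_ne hs, Function.update_of_ne hs]
  refine ⟨fun v r s => ?_, fun v hv => ?_, fun v hv => ?_⟩
  · rw [AlternatingMap.compLinearMap_apply, AlternatingMap.compLinearMap_apply]
    have h1 := hG.1 (fun s => L (v s)) r s
    beta_reduce at h1
    have h2 : (fun i => L (Function.update v r (J (v r)) i)) = _ := hupd v r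
    have h3 : (fun i => L (Function.update v s (J (v s)) i)) = _ := hupd v s
    show w (fun i => L (Function.update v r (J (v r)) i)) =
      w (fun i => L (Function.update v s (J (v s)) i))
    rw [h2, h3]
    exact h1
  · refine hG.2.1 (fun s => L (v s)) fun s => ?_
    rw [← mem_pData_Q, hL]
    have h1 : v s ∈ (pData A).Q := (mem_pData_Q _ _).mpr (hv s)
    have h2 : J (v s) ∈ (pData A).Q := (mem_pData_Q _ _).mpr (H.endo.betti _ (hv s))
    refine Submodule.add_mem _ ?_ h2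
    rw [Rat.cast_smul_eq_qsmul ℂ]
    exact Submodule.smul_mem _ _ h1
  · refine hG.2.2 (fun s => L (v s)) fun s j => ?_
    rw [hL]
    exact ((isAlgebraic_algebraMap (A := ℂ) a).mul (hv s j)).add (H.endo.deRham _ (hv s) j)

theorem bal_span (H : A.IsQuadBy d J) (hg : A.g = 4) {w0 : A.H1 [⋀^Fin 4]→ₗ[ℂ] ℂ} (hw0 : w0 ≠ 0)
    (hG : A.IsGrWeil J w0) (w : A.H1 [⋀^Fin 4]→ₗ[ℂ] ℂ)
    (hbal : ∀ v r s, w (Function.update v r (J (v r))) = w (Function.update v s (J (v s)))) :
    w ∈ Submodule.span ℂ {w | A.IsGrWeil J w} := by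
  classical
  obtain ⟨K, _, _, hCM, ρ, x, C, h2, hx⟩ := H.exists_cm (by omega)
  obtain ⟨F, hF, -⟩ := nonempty_UFh A K ρ C 4 (by rw [h2, hg])
  have hFx : ∀ v, F.ρ x v = J v := fun v => by rw [hF, hx]
  obtain ⟨σ⟩ : Nonempty (K →+* ℂ) := inferInstance
  obtain ⟨z, hz⟩ : ∃ z, z = σ x := ⟨_, rfl⟩
  have hzd : z ^ 2 = -(d : ℂ) := by
    have h1 := H.sq (F.e σ 0)
    rw [← hFx, ← hFx, F.rho_e, map_smul, F.rho_e, smul_smul, ← sub_eq_zero, ← sub_smul,
      smul_eq_zero] at h1
    rw [hz, pow_two]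
    exact sub_eq_zero.mp (h1.resolve_right (Pool.Agent.Helper24.e_ne F σ 0))
  have hzc := conj_of_sq H.pos hzd
  have hd0 : (d : ℂ) ≠ 0 := by exact_mod_cast H.pos.ne'
  have hz0 : z ≠ 0 := by
    rintro h0
    rw [h0] at hzd
    apply hd0
    linear_combination hzd
  have hx' : ComplexEmbedding.conjugate σ x = -z := by
    rw [ComplexEmbedding.conjugate_coe_eq, ← hz, hzc]
  have hJJ : ∀ u, F.ρ x (F.ρ x u) = z ^ 2 • u := fun u => by rw [hFx, hFx, H.sq, hzd]
  have hσ : ∀ σ', σ' = σ ∨ σ' = ComplexEmbedding.conjugate σ :=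
    fun σ' => Pool.Agent.Helper24.emb_two h2 σ σ'
  have cc : ComplexEmbedding.conjugate (ComplexEmbedding.conjugate σ) = σ := by
    ext t
    rw [ComplexEmbedding.conjugate_coe_eq, ComplexEmbedding.conjugate_coe_eq, Complex.conj_conj]
  have hϖ := Complex.two_pi_I_ne_zero
  have hfun : (fun v => F.ρ x v) = J := funext hFx
  have hb0 : ∀ v r s, w0 (Function.update v r (F.ρ x (v r))) =
      w0 (Function.update v s (F.ρ x (v s))) := fun v r s => by
    rw [hFx, hFx]; exact hG.1 v r s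
  have hB0 : ∀ v : Fin 4 → A.H1, (∀ r, v r ∈ (pData A).Q) →
      ∃ q : ℚ, w0 v = (2 * Real.pi * Complex.I) ^ 2 * q := fun v hv =>
    hG.2.1 v (fun r => (mem_pData_Q _ _).mp (hv r))
  have e1 : w0 (fun s => F.e σ s) ≠ 0 := weil_ne1 F hz0 x σ hσ hz.symm hx' hJJ d H.pos hzd w0 hb0
    hw0 _ (pow_ne_zero 2 hϖ) hB0 (Equiv.refl _) 0
  have e2 : w0 (fun s => F.e (ComplexEmbedding.conjugate σ) s) ≠ 0 :=
    weil_ne1 F (neg_ne_zero.mpr hz0) x (ComplexEmbedding.conjugate σ)
    (fun σ' => by rw [cc]; exact (hσ σ').symm) hx' (by rw [cc, ← hz, neg_neg])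
    (fun u => by rw [hJJ, neg_sq]) d H.pos (by rw [neg_sq, hzd]) w0 hb0
    hw0 _ (pow_ne_zero 2 hϖ) hB0 (Equiv.refl _) 0
  -- a second form
  obtain ⟨a, ha0, had⟩ : ∃ a : ℚ, a ≠ 0 ∧ a ^ 2 ≠ d := by
    by_cases h : (1 : ℚ) ^ 2 = d
    · refine ⟨2, by norm_num, fun h' => ?_⟩
      rw [← h] at h'
      norm_num at h'
    · exact ⟨1, one_ne_zero, h⟩
  obtain ⟨L, hL⟩ : ∃ L : A.H1 →ₗ[ℂ] A.H1, ∀ v, L v = (a : ℂ) • v + J v :=
    ⟨(a : ℂ) • LinearMap.id + F.ρ x, fun v => by
      rw [LinearMap.add_apply, LinearMap.smul_apply, LinearMap.id_apply, hFx]⟩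
  have hGa := isGrWeil_comp H hG a L hL
  have hLe : ∀ (ν : K →+* ℂ) s, L (F.e ν s) = ((a : ℂ) + ν x) • F.e ν s := by
    intro ν s
    rw [hL, ← hFx, F.rho_e, add_smul]
  have hLE : ∀ ν : K →+* ℂ, w0.compLinearMap L (fun s => F.e ν s) =
      ((a : ℂ) + ν x) ^ 4 * w0 (fun s => F.e ν s) := by
    intro ν
    rw [AlternatingMap.compLinearMap_apply]
    have h1 : (fun i : Fin 4 => L (F.e ν i)) = fun i => ((a : ℂ) + ν x) • F.e ν i :=
      funext fun s => hLe ν s
    show w0 (fun i : Fin 4 => L (F.e ν i)) = _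
    rw [h1]
    have h3 := (w0 : MultilinearMap ℂ (fun _ : Fin 4 => A.H1) ℂ).map_smul_univ
      (fun _ => (a : ℂ) + ν x) (fun i => F.e ν i)
    rw [Finset.prod_const, Finset.card_univ, Fintype.card_fin, smul_eq_mul] at h3
    exact h3
  have hdet : ((a : ℂ) + z) ^ 4 - ((a : ℂ) - z) ^ 4 ≠ 0 := by
    have h3 : ((a : ℂ) + z) ^ 4 - ((a : ℂ) - z) ^ 4 = 8 * a * z * ((a ^ 2 - d : ℚ) : ℂ) := by
      push_cast
      linear_combination (8 * (a : ℂ) * z) * hzd
    rw [h3]
    refine mul_ne_zero (mul_ne_zero (mul_ne_zero (by norm_num) (by exact_mod_cast ha0)) hz0) ?_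
    have : (a ^ 2 - d : ℚ) ≠ 0 := sub_ne_zero.mpr had
    exact_mod_cast this
  -- vanishing
  have hvan : ∀ w : A.H1 [⋀^Fin 4]→ₗ[ℂ] ℂ,
      (∀ v r s, w (Function.update v r (F.ρ x (v r))) = w (Function.update v s (F.ρ x (v s)))) →
      w (fun s => F.e σ s) = 0 → w (fun s => F.e (ComplexEmbedding.conjugate σ) s) = 0 →
      w = 0 := by
    intro w hb h3 h4
    ext v
    rw [bal_split hz0 hJJ w hb v]
    have h5 : ∀ (ν : K →+* ℂ) (u : A.H1), proj F.ρ ν u ∈
        Submodule.span ℂ (Set.range fun s : Fin 4 => F.e ν s) := by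
      intro ν u
      rw [F.proj_eq]
      exact Submodule.sum_mem _ fun j _ => Submodule.smul_mem _ _ (Submodule.subset_span ⟨j, rfl⟩)
    have h6 : w (fun r => prJ (F.ρ x) z (v r)) = 0 := alt_span_zero w _ h3 _ (fun s => by
      rw [prJ_eq F hz0 x σ hσ hz.symm hx']; exact h5 σ _)
    have h7 : w (fun r => prJ (F.ρ x) (-z) (v r)) = 0 := alt_span_zero w _ h4 _ (fun s => by
      rw [prJ_eq F (neg_ne_zero.mpr hz0) x (ComplexEmbedding.conjugate σ)
        (fun σ' => by rw [cc]; exact (hσ σ').symm) hx' (by rw [cc, ← hz, neg_neg])]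
      exact h5 _ _)
    rw [h6, h7, add_zero]
    rfl
  -- the combination
  obtain ⟨p, hp⟩ : ∃ p, p = w (fun s => F.e σ s) / w0 (fun s => F.e σ s) := ⟨_, rfl⟩
  obtain ⟨q, hq⟩ : ∃ q, q = w (fun s => F.e (ComplexEmbedding.conjugate σ) s) /
    w0 (fun s => F.e (ComplexEmbedding.conjugate σ) s) := ⟨_, rfl⟩
  have hp' : w (fun s => F.e σ s) = p * w0 (fun s => F.e σ s) := by
    rw [hp, div_mul_cancel₀ _ e1]
  have hq' : w (fun s => F.e (ComplexEmbedding.conjugate σ) s) =
      q * w0 (fun s => F.e (ComplexEmbedding.conjugate σ) s) := by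
    rw [hq, div_mul_cancel₀ _ e2]
  obtain ⟨c1, hc1⟩ : ∃ c1, c1 * (((a : ℂ) + z) ^ 4 - ((a : ℂ) - z) ^ 4) = p - q :=
    ⟨(p - q) / (((a : ℂ) + z) ^ 4 - ((a : ℂ) - z) ^ 4), div_mul_cancel₀ _ hdet⟩
  have hwab : ∀ v r s, (w0.compLinearMap L) (Function.update v r (F.ρ x (v r))) =
      (w0.compLinearMap L) (Function.update v s (F.ρ x (v s))) := fun v r s => by
    rw [hFx, hFx]; exact hGa.1 v r s
  have h0 := hvan (w - (p - c1 * ((a : ℂ) + z) ^ 4) • w0 - c1 • w0.compLinearMap L)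
    (fun v r s => by
      rw [AlternatingMap.sub_apply, AlternatingMap.sub_apply, AlternatingMap.smul_apply,
        AlternatingMap.smul_apply, AlternatingMap.sub_apply, AlternatingMap.sub_apply,
        AlternatingMap.smul_apply, AlternatingMap.smul_apply, hb0 v r s, hwab v r s, hFx, hFx,
        hbal v r s])
    (by
      rw [AlternatingMap.sub_apply, AlternatingMap.sub_apply, AlternatingMap.smul_apply,
        AlternatingMap.smul_apply, hLE, hp', ← hz, smul_eq_mul, smul_eq_mul]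
      ring)
    (by
      rw [AlternatingMap.sub_apply, AlternatingMap.sub_apply, AlternatingMap.smul_apply,
        AlternatingMap.smul_apply, hLE, hq', hx', smul_eq_mul, smul_eq_mul]
      linear_combination (-w0 (fun s => F.e (ComplexEmbedding.conjugate σ) s)) * hc1 * (-1))
  rw [sub_eq_zero, sub_eq_iff_eq_add] at h0
  rw [h0]
  exact Submodule.add_mem _ (Submodule.smul_mem _ _ (Submodule.subset_span hGa))
    (Submodule.smul_mem _ _ (Submodule.subset_span hG))

end

end Pool.Agent.GPC
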