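import Pool.Agent.Helper7.W4.Label
import Pool.Agent.Helper8.Lie.P1111
import Pool.Agent.Helper8.Lie.PMixed2

/-!
One factor of rank four over an imaginary quadratic field, with a Weil class: every form is in the
span of products of pairings and of balanced forms of degree four.
-/

namespace Pool.Agent.Helper24

open Module NumberField LieAlgebra Pool.Agent.Helper7

attribute [local instance 100] LieRing.ofAssociativeRing

open Pool.Agent.GPC (Emb IsOdd IsOddModule translate)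
open Pool.Agent.Helper8 (SF SF0 PS symG invF invF_symG SF.toSF0 SF.factor SF.mem_of_factor
  mem_of_PS ML2 Inv2)

set_option linter.unusedSectionVars false

section family

variable {I : Type} [Fintype I] [DecidableEq I] (n : I → ℕ)
  {κ : I → Type} [∀ i, Fintype (κ i)] [∀ i, DecidableEq (κ i)] {ϖ : ℂ}
  (P : ∀ i, PData (κ i) ϖ)
  {K : I → Type} [∀ i, Field (K i)] [∀ i, NumberField (K i)] {r : I → ℕ}
  (F : ∀ i, UF (P i) (K i) (r i))

theorem w4_core {o : I} (hI : ∀ j, j = o) (m0 : Fin (n o)) (hro : r o = 4) (x : K o) {z : ℂ}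
    (hz : z ≠ 0) (σ : K o →+* ℂ) (hσ : ∀ σ', σ' = σ ∨ σ' = ComplexEmbedding.conjugate σ)
    (hσ' : ComplexEmbedding.conjugate σ ≠ σ)
    (hx : σ x = z) (hx' : ComplexEmbedding.conjugate σ x = -z)
    (hJJ : ∀ u, (F o).ρ x ((F o).ρ x u) = z ^ 2 • u) (d : ℚ) (hd : 0 < d)
    (hzd : z ^ 2 = -(d : ℂ)) (w : (κ o → ℂ) [⋀^Fin (2 * 2)]→ₗ[ℂ] ℂ)
    (hbal : ∀ v r s, w (Function.update v r ((F o).ρ x (v r))) =
      w (Function.update v s ((F o).ρ x (v s))))
    (hw0 : w ≠ 0) (hϖ : ϖ ≠ 0)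
    (hBw : ∀ v : Fin (2 * 2) → (κ o → ℂ), (∀ r, v r ∈ (P o).Q) → ∃ q : ℚ, w v = ϖ ^ 2 * q)
    (hAw : ∀ v : Fin (2 * 2) → (κ o → ℂ), (∀ r j, IsAlgebraic ℚ (v r j)) →
      IsAlgebraic ℚ (w v))
    (hsimple : ∀ f, IsDRB (P o) (P o) f → ∃ x, ∀ v, f v = (F o).ρ x v)
    {k : ℕ} (α : (HW κ n) [⋀^Fin (2 * k)]→ₗ[ℂ] ℂ)
    (hB : ∀ v : Fin (2 * k) → HW κ n, (∀ r, IsRatP n P (v r)) → ∃ q : ℚ, α v = ϖ ^ k * q)
    (hA : ∀ v : Fin (2 * k) → HW κ n, (∀ r i m j, IsAlgebraic ℚ (v r i m j)) →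
      IsAlgebraic ℚ (α v)) :
    ∃ M : MultilinearMap ℂ (fun _ : Fin (2 * (k + 2)) => HW κ n) ℂ,
      (∀ v : Fin (2 * (k + 2)) → HW κ n, (∀ r, IsRatP n P (v r)) →
        ∃ q : ℚ, M v = ϖ ^ (k + 2) * q) ∧
      (∀ v : Fin (2 * (k + 2)) → HW κ n, (∀ r i m j, IsAlgebraic ℚ (v r i m j)) →
        IsAlgebraic ℚ (M v)) ∧
      (fun v => α v) ∈ Submodule.span ℂ {Φ | PQ (invB n P M) (DW n P F o x) Finset.univ Φ} := by
  classical
  by_cases hα0 : α = 0
  · refine ⟨0, fun v _ => ⟨0, by simp⟩, fun v _ => ?_, ?_⟩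
    · rw [MultilinearMap.zero_apply]; exact isAlgebraic_zero
    · rw [hα0]
      exact Submodule.zero_mem _
  have hr : ∀ i, 0 < r i := by
    intro i
    rw [hI i, hro]
    omega
  -- the product
  obtain ⟨a, ha⟩ : ∃ a, a = (α : MultilinearMap ℂ (fun _ : Fin (2 * k) => HW κ n) ℂ) := ⟨_, rfl⟩
  obtain ⟨b, hb⟩ : ∃ b, b = (pullW n o m0 w : MultilinearMap ℂ (fun _ : Fin (2 * 2) => HW κ n) ℂ) :=
    ⟨_, rfl⟩
  have ha0 : a ≠ 0 := by
    rw [ha]
    intro h
    apply hα0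
    ext v
    exact congrArg (fun g => g v) h
  have hb0 : b ≠ 0 := by
    rw [hb]
    intro h
    apply hw0
    ext v
    have h1 := congrArg (fun g => g (fun s => slotL n o m0 (v s))) h
    have h2 : w (fun s => (slotL n o m0 (v s)) o m0) = 0 := h1
    simp only [slotL_at] at h2
    exact h2
  obtain ⟨M, hM⟩ : ∃ M, M = pairForm a b := ⟨_, rfl⟩
  have hBM : ∀ v : Fin (2 * (k + 2)) → HW κ n, (∀ r, IsRatP n P (v r)) →
      ∃ q : ℚ, M v = ϖ ^ (k + 2) * q := by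
    intro v hv
    obtain ⟨q1, h1⟩ := hB (fun i => v (pairE k 2 (.inl i))) (fun i => hv _)
    obtain ⟨q2, h2⟩ := hBw (fun i => v (pairE k 2 (.inr i)) o m0) (fun i => hv _ o m0)
    refine ⟨q1 * q2, ?_⟩
    rw [hM, pairForm_apply, ha, hb]
    show α _ * w _ = _
    have h2' : (w fun i => (prL n o m0) (v (pairE k 2 (.inr i)))) = ϖ ^ 2 * q2 := h2
    rw [h1, h2', pow_add]
    push_cast
    ring
  have hAM : ∀ v : Fin (2 * (k + 2)) → HW κ n, (∀ r i m j, IsAlgebraic ℚ (v r i m j)) →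
      IsAlgebraic ℚ (M v) := by
    intro v hv
    rw [hM, pairForm_apply, ha, hb]
    exact (hA _ (fun r i m j => hv _ i m j)).mul (hAw _ (fun r j => hv _ o m0 j))
  refine ⟨M, hBM, hAM, ?_⟩
  -- the symmetries
  have hirr : ∀ s, LieModule.IsIrreducible ℂ (LL n P F M) (Vs n P F M s) :=
    fun s => Vs_irr n P F M hϖ hBM hAM s (hr s.1)
  have htr := LL_trivialRadical n P F M hϖ hBM hAM hr
  have hk : IsKilling ℂ (LL n P F M) := inferInstance
  obtain ⟨ε⟩ : Nonempty (Fin (2 * 2) ≃ Fin (r o)) := ⟨finCongr (by rw [hro])⟩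
  have cc : ∀ {L : Type} [Field L] (ν : L →+* ℂ),
      ComplexEmbedding.conjugate (ComplexEmbedding.conjugate ν) = ν := fun ν => by
    ext t
    rw [ComplexEmbedding.conjugate_coe_eq, ComplexEmbedding.conjugate_coe_eq, Complex.conj_conj]
  have hsym : ∀ X, IsInv n P M X → actForm (lift n X.1) a = (k * X.2) • a ∧
      2 * ch P F ⟨o, σ⟩ X = X.2 := by
    intro X hX
    have h0 := hX.form
    rw [hM] at h0
    obtain ⟨c', h1, h2⟩ := eigen_of_pair (lift n X.1) a b ha0 hb0 _ h0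
    rw [hb] at h2
    have e1 := pull_mult n P F M hr o m0 w σ ε
      (weil_ne1 (F o) hz x σ hσ hx hx' hJJ d hd hzd w hbal hw0 (ϖ ^ 2) (pow_ne_zero _ hϖ) hBw ε
        ⟨0, by omega⟩) X hX c' h2
    have e2 := pull_mult n P F M hr o m0 w (ComplexEmbedding.conjugate σ) ε
      (weil_ne1 (F o) (neg_ne_zero.mpr hz) x (ComplexEmbedding.conjugate σ)
        (fun σ' => by rw [cc]; exact (hσ σ').symm) hx' (by rw [cc, hx, neg_neg])
        (fun u => by rw [hJJ, neg_sq]) d hd (by rw [neg_sq, hzd]) w hbal hw0 (ϖ ^ 2)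
        (pow_ne_zero _ hϖ) hBw ε ⟨0, by omega⟩) X hX c' h2
    have e3 : ch P F ⟨o, σ⟩ X + ch P F ⟨o, ComplexEmbedding.conjugate σ⟩ X = X.2 :=
      ch_conj n P F M hr ⟨o, σ⟩ X hX
    rw [hro] at e1 e2
    push_cast at e1 e2
    have e5 : c' = 2 * X.2 := by
      linear_combination (1 / 2 : ℂ) * e1 + (1 / 2 : ℂ) * e2 + (2 : ℂ) * e3
    refine ⟨?_, by linear_combination (1 / 2 : ℂ) * e5 - (1 / 2 : ℂ) * e1⟩
    rw [h1, e5]
    congr 1
    push_cast
    ring
  -- the labels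
  have h1 : (fun v => α v) =
      ∑ a : Fin (2 * k) → At n K, (fun v : Fin (2 * k) → HW κ n =>
        α (fun r => EE n P F (a r) (v r))) := by
    funext v
    rw [Finset.sum_apply]
    exact sum_labels n P F α v
  rw [h1]
  refine Submodule.sum_mem _ fun t _ => ?_
  have hq : ∀ s, ∃ p : Fin (n o) × Bool, t s =
      ⟨o, p.1, if p.2 then σ else ComplexEmbedding.conjugate σ⟩ := by
    intro s
    obtain ⟨i, m, ν⟩ := t s
    obtain rfl := hI i
    rcases hσ ν with rfl | rfl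
    · exact ⟨(m, true), rfl⟩
    · exact ⟨(m, false), rfl⟩
  choose p hp using hq
  exact slots_four n P F M o σ hr hk (hirr _) hro
    (not_self_dual n P F M hϖ hBM hAM hr ⟨o, σ⟩ hσ' (fun X hX => (hsym X hX).2) hsimple) x
    (SF_label' n P F M α (fun X hX => by
      have := (hsym X hX).1
      rw [ha] at this
      exact this) t) (fun s => (p s).1) (fun s => (p s).2) (fun s _ => hp s)

end family

end Pool.Agent.Helper24
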