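import Pool.Agent.Helper30.AF.Alt22

/-!
The linear map which sends a given basis to an adapted one, and its contragredient.
-/

namespace Pool.Agent.Helper7

open Module Pool.Agent.Helper30.AF

theorem exists_contra {V V' : Type*} [AddCommGroup V] [Module ℂ V] [AddCommGroup V']
    [Module ℂ V'] [FiniteDimensional ℂ V'] (β : V →ₗ[ℂ] V' →ₗ[ℂ] ℂ)
    (hβ1 : ∀ u, (∀ v, β u v = 0) → u = 0) (hβ2 : ∀ v, (∀ u, β u v = 0) → v = 0)
    (b : Basis (Fin 4) ℂ V) (f : Fin 4 → V)
    (hdet : Matrix.det (Matrix.of fun i j => b.repr (f i) j) ≠ 0) :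
    ∃ (T : Module.End ℂ V) (T' : Module.End ℂ V'), (∀ i, T (f i) = b i) ∧
      (∀ u v, β (T u) (T' v) = β u v) ∧ LinearMap.det T * LinearMap.det T' = 1 ∧
      LinearMap.det T * Matrix.det (Matrix.of fun i j => b.repr (f i) j) = 1 ∧
      (∀ i v, β (b i) (T' v) = β (f i) v) ∧ ∀ u, u ∈ Submodule.span ℂ (Set.range f) := by
  classical
  obtain ⟨b', D⟩ := exists_db β hβ1 hβ2 b
  obtain ⟨T0, hT0⟩ : ∃ T0 : Module.End ℂ V, ∀ i, T0 (b i) = f i :=
    ⟨b.constr ℂ f, fun i => b.constr_basis ℂ f i⟩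
  have hm : LinearMap.toMatrix b b T0 = Matrix.transpose (Matrix.of fun i j => b.repr (f i) j) := by
    ext i j
    rw [LinearMap.toMatrix_apply, hT0]
    rfl
  have hd0 : LinearMap.det T0 = Matrix.det (Matrix.of fun i j => b.repr (f i) j) := by
    rw [← LinearMap.det_toMatrix b, hm, Matrix.det_transpose]
  have hu : IsUnit (LinearMap.toMatrix b b T0).det := by
    rw [LinearMap.det_toMatrix, hd0]
    exact isUnit_iff_ne_zero.mpr hdet
  obtain ⟨e, he⟩ : ∃ e : V ≃ₗ[ℂ] V, ∀ u, e u = T0 u := ⟨LinearEquiv.ofIsUnitDet hu, fun u => rfl⟩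
  have hTT : (e.symm : V →ₗ[ℂ] V) * T0 = 1 := by
    apply LinearMap.ext
    intro u
    show e.symm (T0 u) = u
    rw [← he, LinearEquiv.symm_apply_apply]
  have hT0T : ∀ u, T0 ((e.symm : V →ₗ[ℂ] V) u) = u := by
    intro u
    rw [← he]
    exact e.apply_symm_apply u
  -- the adjoint
  obtain ⟨T', hT'⟩ : ∃ T' : Module.End ℂ V', ∀ a, T' (b' a) = ∑ i, β (T0 (b i)) (b' a) • b' i :=
    ⟨b'.constr ℂ (fun a => ∑ i, β (T0 (b i)) (b' a) • b' i),
      fun a => b'.constr_basis ℂ _ a⟩
  have hadj : ∀ u v, β u (T' v) = β (T0 u) v := by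
    have h1 : β.compl₂ T' = β.comp T0 := by
      apply b.ext
      intro i
      apply b'.ext
      intro a
      rw [LinearMap.compl₂_apply, hT', LinearMap.comp_apply, map_sum, Finset.sum_eq_single i]
      · rw [map_smul, D.eq, if_pos rfl, smul_eq_mul, mul_one]
      · intro j _ hj
        rw [map_smul, D.eq, if_neg (Ne.symm hj), smul_zero]
      · intro h; exact absurd (Finset.mem_univ _) h
    intro u v
    have h2 := congrArg (fun g : V →ₗ[ℂ] V' →ₗ[ℂ] ℂ => g u v) h1
    exact h2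
  have hrep : ∀ u a, β u (b' a) = b.repr u a := by
    intro u a
    conv_lhs => rw [← b.sum_repr u]
    rw [map_sum, LinearMap.sum_apply, Finset.sum_eq_single a]
    · rw [map_smul, LinearMap.smul_apply, D.eq, if_pos rfl, smul_eq_mul, mul_one]
    · intro j _ hj
      rw [map_smul, LinearMap.smul_apply, D.eq, if_neg hj, smul_zero]
    · intro h; exact absurd (Finset.mem_univ _) h
  have hm' : LinearMap.toMatrix b' b' T' = Matrix.of fun i j => b.repr (f i) j := by
    ext i j
    rw [LinearMap.toMatrix_apply, hT', map_sum, Finsupp.finsetSum_apply, Finset.sum_eq_single i]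
    · rw [map_smul, Finsupp.smul_apply, b'.repr_self, Finsupp.single_eq_same, smul_eq_mul, mul_one,
        hT0, hrep, Matrix.of_apply]
    · intro l _ hl
      rw [map_smul, Finsupp.smul_apply, b'.repr_self, Finsupp.single_eq_of_ne (Ne.symm hl),
        smul_zero]
    · intro h; exact absurd (Finset.mem_univ _) h
  have hd' : LinearMap.det T' = Matrix.det (Matrix.of fun i j => b.repr (f i) j) := by
    rw [← LinearMap.det_toMatrix b', hm']
  have hdT : LinearMap.det (e.symm : V →ₗ[ℂ] V) * Matrix.det (Matrix.of fun i j => b.repr (f i) j) = 1 := by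
    rw [← hd0, ← map_mul, hTT, map_one]
  refine ⟨e.symm, T', fun i => ?_, fun u v => ?_, ?_, hdT, fun i v => ?_, fun u => ?_⟩
  · rw [← hT0]
    show e.symm (T0 (b i)) = b i
    rw [← he, LinearEquiv.symm_apply_apply]
  · rw [hadj, hT0T]
  · rw [hd', hdT]
  · rw [hadj, hT0]
  · have h1 : u = T0 ((e.symm : V →ₗ[ℂ] V) u) := (hT0T u).symm
    rw [h1, ← b.sum_repr ((e.symm : V →ₗ[ℂ] V) u), map_sum]
    refine Submodule.sum_mem _ fun i _ => ?_
    rw [map_smul, hT0]
    exact Submodule.smul_mem _ _ (Submodule.subset_span ⟨i, rfl⟩)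

end Pool.Agent.Helper7
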