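import Pool.Agent.Helper24.PT.UCore
import Pool.Agent.Helper24.PT.URec
import Pool.Agent.Helper30.AF.SlFourMain
import Pool.Agent.Helper7.W4.Weights
import Pool.Agent.Helper71.W4.FFTsl

/-!
Slot functions at a factor of rank four over an imaginary quadratic field, with vanishing weights,
which is not self-dual.
-/

namespace Pool.Agent.Helper24

open Module NumberField LieAlgebra Pool.Agent.Helper7

attribute [local instance 100] LieRing.ofAssociativeRing

open Pool.Agent.GPC (Emb IsOdd IsOddModule translate)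
open Pool.Agent.Helper8 (SF SF0 PS symG invF invF_symG SF.toSF0 SF.factor SF.mem_of_factor
  mem_of_PS ML2 Inv2)

set_option linter.unusedSectionVars false

section family

variable {I : Type} [Fintype I] [DecidableEq I] (n : I → ℕ)
  {κ : I → Type} [∀ i, Fintype (κ i)] [∀ i, DecidableEq (κ i)] {ϖ : ℂ}
  (P : ∀ i, PData (κ i) ϖ)
  {K : I → Type} [∀ i, Field (K i)] [∀ i, NumberField (K i)] {r : I → ℕ}
  (F : ∀ i, UF (P i) (K i) (r i))
  {l : ℕ} (M : MultilinearMap ℂ (fun _ : Fin (2 * l) => HW κ n) ℂ)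
  (o : I) (σ : K o →+* ℂ)

/-- the forms of degree four on copies of a factor which are balanced for `x` -/
def DW (x : K o) : Set (MultilinearMap ℂ (fun _ : Fin 4 => HW κ n) ℂ) :=
  {D | ∃ (m : Fin 4 → Fin (n o)) (w : (κ o → ℂ) [⋀^Fin 4]→ₗ[ℂ] ℂ),
    (∀ v r s, w (Function.update v r ((F o).ρ x (v r))) =
      w (Function.update v s ((F o).ρ x (v s)))) ∧ ∀ u, D u = w (fun j => u j o (m j))}

lemma toVs_rho (ν : K o →+* ℂ) (x : K o) (u : κ o → ℂ) :
    toVs n P F M ⟨o, ν⟩ ((F o).ρ x u) = ν x • toVs n P F M ⟨o, ν⟩ u := by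
  apply Vs_ext n P F M ⟨o, ν⟩
  have h1 : ((ν x • toVs n P F M ⟨o, ν⟩ u : Vs n P F M ⟨o, ν⟩) : MM κ) o =
      ν x • ((toVs n P F M ⟨o, ν⟩ u : Vs n P F M ⟨o, ν⟩) : MM κ) o := rfl
  have h2 := toVs_apply n P F M ⟨o, ν⟩ ((F o).ρ x u)
  have h3 := toVs_apply n P F M ⟨o, ν⟩ u
  simp only at h2 h3 ⊢
  rw [h1, h2, h3, (F o).proj_rho]

lemma bal_toVs (ν : K o →+* ℂ) (x : K o) (ω : (Vs n P F M ⟨o, ν⟩) [⋀^Fin 4]→ₗ[ℂ] ℂ)
    (v : Fin 4 → (κ o → ℂ)) (r s : Fin 4) :
    ω.compLinearMap (toVs n P F M ⟨o, ν⟩) (Function.update v r ((F o).ρ x (v r))) =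
      ω.compLinearMap (toVs n P F M ⟨o, ν⟩) (Function.update v s ((F o).ρ x (v s))) := by
  have key : ∀ r, ω.compLinearMap (toVs n P F M ⟨o, ν⟩)
      (Function.update v r ((F o).ρ x (v r))) =
      ν x * ω.compLinearMap (toVs n P F M ⟨o, ν⟩) v := by
    intro r
    rw [AlternatingMap.compLinearMap_apply, AlternatingMap.compLinearMap_apply]
    have h1 : (fun i => toVs n P F M ⟨o, ν⟩ (Function.update v r ((F o).ρ x (v r)) i)) =
        Function.update (fun i => toVs n P F M ⟨o, ν⟩ (v i)) r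
          (ν x • toVs n P F M ⟨o, ν⟩ (v r)) := by
      funext i
      by_cases hi : i = r
      · subst hi
        rw [Function.update_self, Function.update_self, toVs_rho]
      · rw [Function.update_of_ne hi, Function.update_of_ne hi]
    have h2 : (ω fun i => toVs n P F M ⟨o, ν⟩ (Function.update v r ((F o).ρ x (v r)) i)) =
        ν x • ω (Function.update (fun i => toVs n P F M ⟨o, ν⟩ (v i)) r
          (toVs n P F M ⟨o, ν⟩ (v r))) := by
      rw [h1, AlternatingMap.map_update_smul]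
    have h3 : Function.update (fun i => toVs n P F M ⟨o, ν⟩ (v i)) r
        (toVs n P F M ⟨o, ν⟩ (v r)) = (fun i => toVs n P F M ⟨o, ν⟩ (v i)) :=
      Function.update_eq_self r (fun i => toVs n P F M ⟨o, ν⟩ (v i))
    rw [h3] at h2
    exact h2
  rw [key, key]

variable {R : Type*} [DecidableEq R] {q : R → At n K} {T : Finset R} {Φ : (R → HW κ n) → ℂ}

/-- the two components of a slot -/
noncomputable def out2 (m : Fin (n o)) :
    HW κ n →ₗ[ℂ] (Vs n P F M ⟨o, σ⟩ × Vs n P F M ⟨o, ComplexEmbedding.conjugate σ⟩) :=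
  (outS n P F M ⟨o, m, σ⟩).prod (outS n P F M ⟨o, m, ComplexEmbedding.conjugate σ⟩)

/-- products of forms on the eigenspaces give products of forms -/
lemma PQ_out (x : K o) (mm : R → Fin (n o)) {S : Finset R}
    {Θ : (R → (Vs n P F M ⟨o, σ⟩ × Vs n P F M ⟨o, ComplexEmbedding.conjugate σ⟩)) → ℂ}
    (h : PQ {b | ∀ u w, b u w = bp n P F M o σ (ComplexEmbedding.conjugate σ) u.1 w.2}
      ({D | ∃ ω : (Vs n P F M ⟨o, σ⟩) [⋀^Fin 4]→ₗ[ℂ] ℂ, ∀ u, D u = ω (fun j => (u j).1)} ∪
       {D | ∃ ω : (Vs n P F M ⟨o, ComplexEmbedding.conjugate σ⟩) [⋀^Fin 4]→ₗ[ℂ] ℂ,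
        ∀ u, D u = ω (fun j => (u j).2)}) S Θ) :
    PQ (invB n P M) (DW n P F o x) S (fun v => Θ (fun t => out2 n P F M o σ (mm t) (v t))) := by
  induction h with
  | nil => exact PQ.nil
  | pair r r' b hb _ hr hr' hne ih =>
    refine PQ.pair r r' (b.compl₁₂ (out2 n P F M o σ (mm r)) (out2 n P F M o σ (mm r'))) ?_
      ih hr hr' hne
    have h1 : b.compl₁₂ (out2 n P F M o σ (mm r)) (out2 n P F M o σ (mm r')) =
        bf n P F o (mm r) (mm r') σ := by
      apply LinearMap.ext₂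
      intro u w
      rw [LinearMap.compl₁₂_apply, hb, bf_eq_bp n P F M]
      rfl
    rw [h1]
    exact bf_mem n P F M o (mm r) (mm r') σ
  | quad e D hD _ he hT ih =>
    refine PQ.quad e (D.compLinearMap (fun j => out2 n P F M o σ (mm (e j)))) ?_ ih he hT
    rcases hD with ⟨ω, hω⟩ | ⟨ω, hω⟩
    · refine ⟨fun j => mm (e j), ω.compLinearMap (toVs n P F M ⟨o, σ⟩),
        bal_toVs n P F M o σ x ω, fun u => ?_⟩
      rw [MultilinearMap.compLinearMap_apply, hω]
      rfl
    · refine ⟨fun j => mm (e j), ω.compLinearMap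
        (toVs n P F M ⟨o, ComplexEmbedding.conjugate σ⟩),
        bal_toVs n P F M o (ComplexEmbedding.conjugate σ) x ω, fun u => ?_⟩
      rw [MultilinearMap.compLinearMap_apply, hω]
      rfl

/-- vectors of the two eigenspaces in the slots -/
noncomputable def w1S (mm : R → Fin (n o)) (ν : R → Bool) (t : R) :
    (Vs n P F M ⟨o, σ⟩ × Vs n P F M ⟨o, ComplexEmbedding.conjugate σ⟩) →ₗ[ℂ] HW κ n :=
  if ν t then (inS n P F M ⟨o, mm t, σ⟩) ∘ₗ LinearMap.fst ℂ _ _
  else (inS n P F M ⟨o, mm t, ComplexEmbedding.conjugate σ⟩) ∘ₗ LinearMap.snd ℂ _ _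

/-- vectors of the two eigenspaces in the slots -/
noncomputable def inV (mm : R → Fin (n o)) (ν : R → Bool)
    (y : R → (Vs n P F M ⟨o, σ⟩ × Vs n P F M ⟨o, ComplexEmbedding.conjugate σ⟩)) (t : R) :
    HW κ n := w1S n P F M o σ mm ν t (y t)

lemma inV_true (mm : R → Fin (n o)) (ν : R → Bool)
    (y : R → (Vs n P F M ⟨o, σ⟩ × Vs n P F M ⟨o, ComplexEmbedding.conjugate σ⟩)) (t : R)
    (ht : ν t = true) : inV n P F M o σ mm ν y t = inS n P F M ⟨o, mm t, σ⟩ (y t).1 := by
  rw [inV, w1S]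
  simp only [ht, if_true]
  rfl

lemma inV_false (mm : R → Fin (n o)) (ν : R → Bool)
    (y : R → (Vs n P F M ⟨o, σ⟩ × Vs n P F M ⟨o, ComplexEmbedding.conjugate σ⟩)) (t : R)
    (ht : ν t = false) : inV n P F M o σ mm ν y t =
      inS n P F M ⟨o, mm t, ComplexEmbedding.conjugate σ⟩ (y t).2 := by
  rw [inV, w1S]
  simp only [ht]
  rfl

lemma inV_update (mm : R → Fin (n o)) (ν : R → Bool)
    (y : R → (Vs n P F M ⟨o, σ⟩ × Vs n P F M ⟨o, ComplexEmbedding.conjugate σ⟩)) (t : R)
    (p : Vs n P F M ⟨o, σ⟩ × Vs n P F M ⟨o, ComplexEmbedding.conjugate σ⟩) :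
    inV n P F M o σ mm ν (Function.update y t p) =
      Function.update (inV n P F M o σ mm ν y) t (w1S n P F M o σ mm ν t p) := by
  funext s
  by_cases hs : s = t
  · subst hs; rw [inV, Function.update_self, Function.update_self]
  · rw [inV, Function.update_of_ne hs, Function.update_of_ne hs, inV]

/-- slot functions at a factor of rank four which is not self-dual: products of pairings and
determinants -/
theorem slots_key (hr : ∀ i, 0 < r i) (hk : IsKilling ℂ (LL n P F M))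
    (hirr : LieModule.IsIrreducible ℂ (LL n P F M) (Vs n P F M ⟨o, σ⟩)) (hro : r o = 4)
    (hns : ∀ f : Vs n P F M ⟨o, σ⟩ → Vs n P F M ⟨o, σ⟩ → ℂ, ML2 f → Inv2 (LL n P F M) f →
      ∀ x y, f x y = 0)
    (h : SF (symG n P M) (EE n P F) q T Φ) (mm : R → Fin (n o)) (ν : R → Bool)
    (hq : ∀ t ∈ T, q t = ⟨o, mm t, if ν t then σ else ComplexEmbedding.conjugate σ⟩) :
    (fun y => Φ (inV n P F M o σ mm ν y)) ∈ Submodule.span ℂ {Ψ | PQ {b | ∀ u w, b u w =
        bp n P F M o σ (ComplexEmbedding.conjugate σ) u.1 w.2}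
      ({D | ∃ ω : (Vs n P F M ⟨o, σ⟩) [⋀^Fin 4]→ₗ[ℂ] ℂ, ∀ u, D u = ω (fun j => (u j).1)} ∪
       {D | ∃ ω : (Vs n P F M ⟨o, ComplexEmbedding.conjugate σ⟩) [⋀^Fin 4]→ₗ[ℂ] ℂ,
        ∀ u, D u = ω (fun j => (u j).2)})
      (T.filter (fun t => ν t = true) ∪ T.filter (fun t => ¬ ν t = true)) Ψ} := by
  classical
  have hfd : FiniteDimensional ℂ (Vs n P F M ⟨o, σ⟩) :=
    (bV n P F M ⟨o, σ⟩).finiteDimensional_of_finite
  have hfd' : FiniteDimensional ℂ (Vs n P F M ⟨o, ComplexEmbedding.conjugate σ⟩) :=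
    (bV n P F M ⟨o, ComplexEmbedding.conjugate σ⟩).finiteDimensional_of_finite
  have hd : finrank ℂ (Vs n P F M ⟨o, σ⟩) = 4 := (finrank_Vs n P F M ⟨o, σ⟩).trans hro
  have hpair := bp_pair n P F M hr o σ
  refine fft_sl hd (bp n P F M o σ (ComplexEmbedding.conjugate σ)) hpair.ndl hpair.ndr _ _
    (Finset.disjoint_filter_filter_not _ _ _) _ ?_ ?_ ?_ ?_
  · intro y y' hA hB
    refine h.dep _ _ fun t ht => ?_
    by_cases hν : ν t = true
    · rw [inV_true n P F M o σ mm ν y t hν, inV_true n P F M o σ mm ν y' t hν,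
        hA t (Finset.mem_filter.mpr ⟨ht, hν⟩)]
    · rw [inV_false n P F M o σ mm ν y t (by simpa using hν),
        inV_false n P F M o σ mm ν y' t (by simpa using hν),
        hB t (Finset.mem_filter.mpr ⟨ht, hν⟩)]
  · intro y t ht p p'
    rw [Finset.filter_union_filter_not_eq] at ht
    rw [inV_update, inV_update, inV_update, map_add, h.add _ t ht]
  · intro y t ht c p
    rw [Finset.filter_union_filter_not_eq] at ht
    rw [inV_update, inV_update, map_smul, h.smul _ t ht]
  · intro X X' hX hXX y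
    rw [Finset.filter_union_filter_not_eq]
    obtain ⟨a, ha⟩ := sl_four (L := LL n P F M) hd (fun γ hγ => by
      apply LinearMap.ext₂
      intro u v
      exact hns (fun u v => γ u v) ⟨fun v => ⟨fun u u' => by rw [map_add]; rfl,
        fun c u => by rw [map_smul]; rfl⟩, fun u => ⟨fun v v' => by rw [map_add],
        fun c v => by rw [map_smul, smul_eq_mul]⟩⟩ (fun a u v => hγ a u v) u v) X hX
    have ha' : ∀ v, ⁅a, v⁆ = X' v := by
      intro v
      rw [← sub_eq_zero]
      apply hpair.ndr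
      intro u
      rw [map_sub, sub_eq_zero]
      have h1 := hpair.inv a u v
      have h2 := hXX u v
      rw [ha u] at h1
      linear_combination h1 - h2
    rw [← inv_slot n P F M hk h a (inV n P F M o σ mm ν y)
      (fun t => w1S n P F M o σ mm ν t (X (y t).1, X' (y t).2)) (fun t ht => by
      by_cases hν : ν t = true
      · have e : q t = ⟨o, mm t, σ⟩ := by rw [hq t ht, if_pos hν]
        rw [e]
        refine ⟨(y t).1, inV_true n P F M o σ mm ν y t hν, ?_⟩
        rw [w1S]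
        simp only [hν, if_true]
        show inS n P F M ⟨o, mm t, σ⟩ (X (y t).1) = _
        rw [← ha]
      · have hν' : ν t = false := by simpa using hν
        have e : q t = ⟨o, mm t, ComplexEmbedding.conjugate σ⟩ := by rw [hq t ht, if_neg hν]
        rw [e]
        refine ⟨(y t).2, inV_false n P F M o σ mm ν y t hν', ?_⟩
        rw [w1S]
        simp only [hν', Bool.false_eq_true, if_false]
        show inS n P F M ⟨o, mm t, ComplexEmbedding.conjugate σ⟩ (X' (y t).2) = _
        rw [← ha'])]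
    exact Finset.sum_congr rfl fun t _ => by rw [inV_update]

/-- a slot function is determined by the components in the slots -/
lemma slots_out (h : SF0 (EE n P F) q T Φ) (mm : R → Fin (n o)) (ν : R → Bool)
    (hq : ∀ t ∈ T, q t = ⟨o, mm t, if ν t then σ else ComplexEmbedding.conjugate σ⟩)
    (v : R → HW κ n) :
    Φ v = Φ (inV n P F M o σ mm ν (fun t => out2 n P F M o σ (mm t) (v t))) := by
  refine lab_eq n P F M h v _ fun t ht => ?_
  by_cases hν : ν t = true
  · have e : q t = ⟨o, mm t, σ⟩ := by rw [hq t ht, if_pos hν]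
    rw [e, inV_true n P F M o σ mm ν _ t hν]
    rfl
  · have hν' : ν t = false := by simpa using hν
    have e : q t = ⟨o, mm t, ComplexEmbedding.conjugate σ⟩ := by rw [hq t ht, if_neg hν]
    rw [e, inV_false n P F M o σ mm ν _ t hν']
    rfl

/-- slots at a factor of rank four which is not self-dual -/
theorem slots_four (hr : ∀ i, 0 < r i) (hk : IsKilling ℂ (LL n P F M))
    (hirr : LieModule.IsIrreducible ℂ (LL n P F M) (Vs n P F M ⟨o, σ⟩)) (hro : r o = 4)
    (hns : ∀ f : Vs n P F M ⟨o, σ⟩ → Vs n P F M ⟨o, σ⟩ → ℂ, ML2 f → Inv2 (LL n P F M) f →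
      ∀ x y, f x y = 0) (x : K o)
    (h : SF (symG n P M) (EE n P F) q T Φ) (mm : R → Fin (n o)) (ν : R → Bool)
    (hq : ∀ t ∈ T, q t = ⟨o, mm t, if ν t then σ else ComplexEmbedding.conjugate σ⟩) :
    Φ ∈ Submodule.span ℂ {Ψ | PQ (invB n P M) (DW n P F o x) T Ψ} := by
  have key := slots_key n P F M o σ hr hk hirr hro hns h mm ν hq
  rw [Finset.filter_union_filter_not_eq] at key
  have hΦ : Φ = fun v => (fun y => Φ (inV n P F M o σ mm ν y))
      (fun t => out2 n P F M o σ (mm t) (v t)) := by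
    funext v
    exact slots_out n P F M o σ h.toSF0 mm ν hq v
  rw [hΦ]
  generalize (fun y => Φ (inV n P F M o σ mm ν y)) = Ψ at key
  induction key using Submodule.span_induction with
  | mem Ψ hΨ => exact Submodule.subset_span (PQ_out n P F M o σ x mm hΨ)
  | zero => exact Submodule.zero_mem _
  | add Ψ Ψ' _ _ h1 h2 => exact Submodule.add_mem _ h1 h2
  | smul c Ψ _ h1 => exact Submodule.smul_mem _ c h1

end family

end Pool.Agent.Helper24
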