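import Pool.Agent.Helper7.W4.Alg
import Pool.Agent.Helper7.W4.Label

/-!
From a form with different numbers of slots at the two places to the algebraicity of the
determinant of periods.
-/

namespace Pool.Agent.Helper24

open Module NumberField LieAlgebra Pool.Agent.Helper7

attribute [local instance 100] LieRing.ofAssociativeRing

open Pool.Agent.GPC (Emb IsOdd IsOddModule translate)
open Pool.Agent.Helper8 (SF SF0 PS symG invF invF_symG SF.toSF0 SF.factor SF.mem_of_factor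
  mem_of_PS ML2 Inv2)

set_option linter.unusedSectionVars false

section family

variable {I : Type} [Fintype I] [DecidableEq I] (n : I → ℕ)
  {κ : I → Type} [∀ i, Fintype (κ i)] [∀ i, DecidableEq (κ i)] {ϖ : ℂ}

lemma slotL_forall (o : I) (m : Fin (n o)) (u : κ o → ℂ) (Q : ∀ i, (κ i → ℂ) → Prop)
    (h0 : ∀ i, Q i 0) (hu : Q o u) (i : I) (m' : Fin (n i)) : Q i ((slotL n o m u) i m') := by
  by_cases hi : i = o
  · subst hi
    by_cases hm : m' = m
    · subst hm
      have h1 : (slotL n i m' u) i m' = u := prL_slotL n i m' u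
      rw [h1]; exact hu
    · have h1 : (slotL n i m u) i m' = 0 := prL_slotL_ne n i m m' hm u
      rw [h1]; exact h0 i
  · have h1 : (slotL n o m u) i m' = 0 := prL_slotL_ne' n o i m m' hi u
    rw [h1]; exact h0 i

lemma slotL_alg (o : I) (m : Fin (n o)) (u : κ o → ℂ) (hu : ∀ j, IsAlgebraic ℚ (u j)) (i : I)
    (m' : Fin (n i)) (j : κ i) : IsAlgebraic ℚ ((slotL n o m u) i m' j) :=
  slotL_forall n o m u (fun i u => ∀ j : κ i, IsAlgebraic ℚ (u j)) (fun _ _ => isAlgebraic_zero) hu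
    i m' j

variable (P : ∀ i, PData (κ i) ϖ)
  {K : I → Type} [∀ i, Field (K i)] [∀ i, NumberField (K i)]

lemma slotL_rat (o : I) (m : Fin (n o)) (u : κ o → ℂ) (hu : u ∈ (P o).Q) :
    IsRatP n P (slotL n o m u) := fun i m' =>
  slotL_forall n o m u (fun i u => u ∈ (P i).Q) (fun _ => Submodule.zero_mem _) hu i m'

variable (F : ∀ i, UF (P i) (K i) 4)

/-- the values at adapted vectors -/
lemma alg_val {k : ℕ} (α : (HW κ n) [⋀^Fin (2 * k)]→ₗ[ℂ] ℂ) (hϖ : ϖ ≠ 0)
    (hB : ∀ v : Fin (2 * k) → HW κ n, (∀ r, IsRatP n P (v r)) → ∃ q : ℚ, α v = ϖ ^ k * q)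
    (o : I) (mm : Fin (2 * k) → Fin (n o)) (τ : Fin (2 * k) → (K o →+* ℂ))
    (l : Fin (2 * k) → Fin 4) :
    IsAlgebraic ℚ ((ϖ ^ k)⁻¹ * α (fun s => slotL n o (mm s) ((F o).e (τ s) (l s)))) := by
  classical
  have h1 : (fun s => slotL n o (mm s) ((F o).e (τ s) (l s))) = fun s => ∑ b,
      (τ s) (dbas (K o) b) • slotL n o (mm s) ((F o).ρ (bas (K o) b) ((F o).lam (l s))) := by
    funext s
    rw [(F o).e_eq, proj, LinearMap.sum_apply, map_sum]
    refine Finset.sum_congr rfl fun b _ => ?_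
    rw [LinearMap.smul_apply, map_smul]
  rw [h1]
  refine alg_comb (α : MultilinearMap ℂ (fun _ : Fin (2 * k) => HW κ n) ℂ) ((ϖ ^ k)⁻¹)
    (fun s b => (τ s) (dbas (K o) b))
    (fun s b => slotL n o (mm s) ((F o).ρ (bas (K o) b) ((F o).lam (l s))))
    (fun s b => isAlg_emb _ _) (fun t => ?_)
  obtain ⟨q, hq⟩ := hB (fun s => slotL n o (mm s) ((F o).ρ (bas (K o) (t s)) ((F o).lam (l s))))
    (fun s => slotL_rat n P o (mm s) _ (((F o).hρ _).rat _ ((F o).lam_rat _)))
  have h2 : (α : MultilinearMap ℂ (fun _ : Fin (2 * k) => HW κ n) ℂ)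
      (fun s => slotL n o (mm s) ((F o).ρ (bas (K o) (t s)) ((F o).lam (l s)))) = ϖ ^ k * q := hq
  rw [h2, inv_mul_cancel_left₀ (pow_ne_zero _ hϖ)]
  exact isAlgebraic_algebraMap (A := ℂ) q

lemma co_projF {κ : Type} [Fintype κ] [DecidableEq κ] {P : PData κ ϖ} {K : Type} [Field K]
    [NumberField K] (F : UF P K 4) (σ : K →+* ℂ) (j : Fin 4) (u : κ → ℂ) :
    F.co σ j (proj F.ρ σ u) = F.co σ j u := by
  classical
  rw [F.proj_eq, map_sum]
  conv_rhs => rw [F.hsum u, map_sum]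
  rw [Finset.sum_eq_single σ]
  · rw [map_sum]
  · intro τ _ hτ
    rw [map_sum]
    refine Finset.sum_eq_zero fun a _ => ?_
    rw [map_smul, F.co_e, if_neg (fun h => hτ h.1.symm), smul_zero]
  · intro h; exact absurd (Finset.mem_univ _) h

section EEw

variable {k : ℕ} (M : MultilinearMap ℂ (fun _ : Fin (2 * k) => HW κ n) ℂ) (o : I)
  (σ : K o →+* ℂ) {R : Type*} [DecidableEq R]

lemma EE_w1S (mm : R → Fin (n o)) (ν : R → Bool) (s : R) (u : HW κ n) :
    EE n P F ⟨o, mm s, if ν s then σ else ComplexEmbedding.conjugate σ⟩ u =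
      w1S n P F M o σ mm ν s (out2 n P F M o σ (mm s) u) := by
  by_cases hν : ν s = true
  · rw [w1S, if_pos hν, if_pos hν, EE_eq n P F M]
    rfl
  · rw [w1S, if_neg hν, if_neg hν, EE_eq n P F M]
    rfl

lemma EE_inV (mm : R → Fin (n o)) (ν : R → Bool) (s : R)
    (y : R → (Vs n P F M ⟨o, σ⟩ × Vs n P F M ⟨o, ComplexEmbedding.conjugate σ⟩)) :
    EE n P F ⟨o, mm s, if ν s then σ else ComplexEmbedding.conjugate σ⟩
      (inV n P F M o σ mm ν y s) = inV n P F M o σ mm ν y s := by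
  by_cases hν : ν s = true
  · rw [inV_true n P F M o σ mm ν y s hν, if_pos hν, EE_eq n P F M]
    exact congrArg _ (out_in n P F M ⟨o, mm s, σ⟩ _)
  · rw [inV_false n P F M o σ mm ν y s (by simpa using hν), if_neg hν, EE_eq n P F M]
    exact congrArg _ (out_in n P F M ⟨o, mm s, ComplexEmbedding.conjugate σ⟩ _)

end EEw

end family

end Pool.Agent.Helper24
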