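import Pool.Agent.Helper7.W4.Defs
import Mathlib.LinearAlgebra.Determinant

/-!
Products of pairings and of forms of degree four: homogeneity and count.
-/

namespace Pool.Agent.Helper7

open Module

lemma alt_comp_det {V : Type*} [AddCommGroup V] [Module ℂ V] [FiniteDimensional ℂ V]
    (hd : finrank ℂ V = 4) (ω : V [⋀^Fin 4]→ₗ[ℂ] ℂ) (T : Module.End ℂ V) (v : Fin 4 → V) :
    ω (fun j => T (v j)) = LinearMap.det T * ω v := by
  have b : Basis (Fin 4) ℂ V := (finBasis ℂ V).reindex (finCongr hd)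
  rw [AlternatingMap.eq_smul_basis_det b ω]
  simp only [AlternatingMap.smul_apply, smul_eq_mul]
  have := b.det_comp T v
  have e : (⇑T ∘ v) = fun j => T (v j) := rfl
  rw [e] at this
  rw [this]
  ring

section

variable {R : Type*} [DecidableEq R] {V V' : Type*} [AddCommGroup V] [Module ℂ V]
    [FiniteDimensional ℂ V] [AddCommGroup V'] [Module ℂ V'] [FiniteDimensional ℂ V']

lemma PQ_aux (hd : finrank ℂ V = 4) (hd' : finrank ℂ V' = 4) (β : V →ₗ[ℂ] V' →ₗ[ℂ] ℂ)
    (T : Module.End ℂ V) (T' : Module.End ℂ V') (hT : ∀ u v, β (T u) (T' v) = β u v)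
    (A B : Finset R) (x : R → V × V') (hA : ∀ r ∈ A, (x r).2 = 0)
    (hB : ∀ r ∈ B, (x r).1 = 0) {S : Finset R} {Ψ : (R → V × V') → ℂ}
    (h : PQ {b | ∀ u w, b u w = β u.1 w.2}
      ({D | ∃ ω : V [⋀^Fin 4]→ₗ[ℂ] ℂ, ∀ u, D u = ω (fun j => (u j).1)} ∪
       {D | ∃ ω : V' [⋀^Fin 4]→ₗ[ℂ] ℂ, ∀ u, D u = ω (fun j => (u j).2)}) S Ψ) :
    S ⊆ A ∪ B → ∃ a b : ℕ,
      (Ψ x ≠ 0 → ∑ r ∈ S, (if r ∈ A then (1 : ℤ) else -1) = 4 * ((a : ℤ) - b)) ∧
      Ψ (fun r => (T (x r).1, T' (x r).2)) = LinearMap.det T ^ a * LinearMap.det T' ^ b * Ψ x := by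
  induction h with
  | nil => exact fun _ => ⟨0, 0, by simp, by simp⟩
  | @pair S Φ r r' b hb _ hr hr' hrr ih =>
    intro hS
    obtain ⟨a, c, h1, h2⟩ := ih (fun s hs => hS (by simp [hs]))
    have hb' : ∀ u w, b u w = β u.1 w.2 := hb
    refine ⟨a, c, fun hne => ?_, ?_⟩
    · have hne1 : b (x r) (x r') ≠ 0 := left_ne_zero_of_mul hne
      have hne2 : Φ x ≠ 0 := right_ne_zero_of_mul hne
      rw [hb'] at hne1
      have hrA : r ∈ A := by
        have : r ∈ A ∪ B := hS (by simp)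
        rcases Finset.mem_union.1 this with h | h
        · exact h
        · exact absurd (by rw [hB r h]; simp) hne1
      have hrA' : r' ∉ A := fun h => hne1 (by rw [hA r' h]; simp)
      rw [Finset.sum_insert (by simp [hrr, hr]), Finset.sum_insert hr', if_pos hrA, if_neg hrA',
        h1 hne2]
      ring
    · simp only [hb', hT, h2]
      ring
  | @quad S Φ e D hD _ he heS ih =>
    intro hS
    obtain ⟨a, c, h1, h2⟩ := ih (fun s hs => hS (by simp [hs]))
    have hsum : ∀ f : R → ℤ, ∑ r ∈ Finset.univ.image e ∪ S, f r =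
        ∑ j, f (e j) + ∑ r ∈ S, f r := by
      intro f
      rw [Finset.sum_union, Finset.sum_image (fun _ _ _ _ h => he h)]
      rw [Finset.disjoint_left]
      intro r hr
      obtain ⟨j, -, rfl⟩ := Finset.mem_image.1 hr
      exact heS j
    rcases hD with ⟨ω, hω⟩ | ⟨ω, hω⟩
    · refine ⟨a + 1, c, fun hne => ?_, ?_⟩
      · have hne1 : D (fun j => x (e j)) ≠ 0 := left_ne_zero_of_mul hne
        have hne2 : Φ x ≠ 0 := right_ne_zero_of_mul hne
        rw [hω] at hne1
        have hrA : ∀ j, e j ∈ A := by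
          intro j
          have : e j ∈ A ∪ B := hS (by simp)
          rcases Finset.mem_union.1 this with h | h
          · exact h
          · exact absurd (ω.map_coord_zero j (hB _ h)) hne1
        rw [hsum, h1 hne2]
        simp only [hrA, if_true, Finset.sum_const, Finset.card_univ, Fintype.card_fin]
        push_cast
        simp only [nsmul_eq_mul]
        push_cast
        ring
      · simp only [hω, h2]
        rw [alt_comp_det hd ω T (fun j => (x (e j)).1)]
        ring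
    · refine ⟨a, c + 1, fun hne => ?_, ?_⟩
      · have hne1 : D (fun j => x (e j)) ≠ 0 := left_ne_zero_of_mul hne
        have hne2 : Φ x ≠ 0 := right_ne_zero_of_mul hne
        rw [hω] at hne1
        have hrA : ∀ j, e j ∉ A := fun j h => hne1 (ω.map_coord_zero j (hA _ h))
        rw [hsum, h1 hne2]
        simp only [hrA, if_false, Finset.sum_const, Finset.card_univ, Fintype.card_fin]
        push_cast
        simp only [nsmul_eq_mul]
        push_cast
        ring
      · simp only [hω, h2]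
        rw [alt_comp_det hd' ω T' (fun j => (x (e j)).2)]
        ring

lemma sum_pm (A B : Finset R) (hAB : Disjoint A B) :
    ∑ r ∈ A ∪ B, (if r ∈ A then (1 : ℤ) else -1) = A.card - B.card := by
  rw [Finset.sum_union hAB]
  have h1 : ∑ r ∈ A, (if r ∈ A then (1 : ℤ) else -1) = A.card := by
    rw [Finset.sum_congr rfl (fun r hr => if_pos hr)]
    simp
  have h2 : ∑ r ∈ B, (if r ∈ A then (1 : ℤ) else -1) = -B.card := by
    rw [Finset.sum_congr rfl (fun r hr => if_neg (fun h => (Finset.disjoint_left.1 hAB) h hr))]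
    simp
  rw [h1, h2]
  ring

/-- Homogeneity of the span of products of pairings and 4-forms. -/
theorem PQ_homog (hd : finrank ℂ V = 4) (hd' : finrank ℂ V' = 4) (β : V →ₗ[ℂ] V' →ₗ[ℂ] ℂ)
    (T : Module.End ℂ V) (T' : Module.End ℂ V') (hT : ∀ u v, β (T u) (T' v) = β u v)
    (hdet : LinearMap.det T * LinearMap.det T' = 1)
    (A B : Finset R) (hAB : Disjoint A B) (m : ℕ) (hm : A.card = B.card + 4 * m)
    (Φ : (R → V × V') → ℂ)
    (hΦ : Φ ∈ Submodule.span ℂ {Ψ | PQ {b | ∀ u w, b u w = β u.1 w.2}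
      ({D | ∃ ω : V [⋀^Fin 4]→ₗ[ℂ] ℂ, ∀ u, D u = ω (fun j => (u j).1)} ∪
       {D | ∃ ω : V' [⋀^Fin 4]→ₗ[ℂ] ℂ, ∀ u, D u = ω (fun j => (u j).2)}) (A ∪ B) Ψ})
    (x : R → V × V') (hA : ∀ r ∈ A, (x r).2 = 0) (hB : ∀ r ∈ B, (x r).1 = 0) :
    Φ (fun r => (T (x r).1, T' (x r).2)) = LinearMap.det T ^ m * Φ x := by
  induction hΦ using Submodule.span_induction with
  | zero => simp
  | add f g _ _ hf hg => simp only [Pi.add_apply, hf, hg]; ring
  | smul c f _ hf => simp only [Pi.smul_apply, smul_eq_mul, hf]; ring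
  | mem Ψ hΨ =>
    obtain ⟨a, b, h1, h2⟩ := PQ_aux hd hd' β T T' hT A B x hA hB hΨ (subset_refl _)
    by_cases hne : Ψ x = 0
    · rw [h2, hne]; simp
    · have h3 := h1 hne
      rw [sum_pm A B hAB] at h3
      have h4 : a = m + b := by omega
      rw [h2, h4, pow_add]
      have : LinearMap.det T ^ b * LinearMap.det T' ^ b = 1 := by
        rw [← mul_pow, hdet, one_pow]
      linear_combination (LinearMap.det T ^ m * Ψ x) * this

theorem PQ_count (hd : finrank ℂ V = 4) (hd' : finrank ℂ V' = 4) (β : V →ₗ[ℂ] V' →ₗ[ℂ] ℂ)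
    (A B : Finset R) (hAB : Disjoint A B)
    (Φ : (R → V × V') → ℂ)
    (hΦ : Φ ∈ Submodule.span ℂ {Ψ | PQ {b | ∀ u w, b u w = β u.1 w.2}
      ({D | ∃ ω : V [⋀^Fin 4]→ₗ[ℂ] ℂ, ∀ u, D u = ω (fun j => (u j).1)} ∪
       {D | ∃ ω : V' [⋀^Fin 4]→ₗ[ℂ] ℂ, ∀ u, D u = ω (fun j => (u j).2)}) (A ∪ B) Ψ})
    (x : R → V × V') (hA : ∀ r ∈ A, (x r).2 = 0) (hB : ∀ r ∈ B, (x r).1 = 0) (hx : Φ x ≠ 0) :
    ∃ a b : ℕ, A.card + 4 * b = B.card + 4 * a := by
  induction hΦ using Submodule.span_induction with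
  | zero => exact absurd rfl hx
  | add f g _ _ hf hg =>
    by_cases h : f x = 0
    · refine hg (fun h' => hx ?_)
      simp [h, h']
    · exact hf h
  | smul c f _ hf => exact hf (fun h => hx (by simp [h]))
  | mem Ψ hΨ =>
    obtain ⟨a, b, h1, -⟩ := PQ_aux hd hd' β 1 1 (fun _ _ => rfl) A B x hA hB hΨ (subset_refl _)
    have h3 := h1 hx
    rw [sum_pm A B hAB] at h3
    exact ⟨a, b, by omega⟩

end

end Pool.Agent.Helper7
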