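import Pool.Agent.Helper28.W4.ExistsWeil
import Pool.Agent.Helper7.W4.Dual
import Pool.Agent.Helper7.W4.Extract
import Pool.Agent.Helper7.W4.Homog

/-!
From a form with different numbers of slots at the two places to the algebraicity of the
determinant of periods: the main step.
-/

namespace Pool.Agent.Helper24

open Module NumberField LieAlgebra Pool.Agent.Helper7

attribute [local instance 100] LieRing.ofAssociativeRing

open Pool.Agent.GPC (Emb IsOdd IsOddModule translate)
open Pool.Agent.Helper8 (SF SF0 PS symG invF invF_symG SF.toSF0 SF.factor SF.mem_of_factor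
  mem_of_PS ML2 Inv2)

set_option linter.unusedSectionVars false

section family

variable {I : Type} [Fintype I] [DecidableEq I] (n : I → ℕ)
  {κ : I → Type} [∀ i, Fintype (κ i)] [∀ i, DecidableEq (κ i)] {ϖ : ℂ}
  (P : ∀ i, PData (κ i) ϖ)
  {K : I → Type} [∀ i, Field (K i)] [∀ i, NumberField (K i)]
  (F : ∀ i, UF (P i) (K i) 4)

/-- the coordinates of a vector with algebraic pairings -/
lemma coord_alg {k : ℕ} (M : MultilinearMap ℂ (fun _ : Fin (2 * k) => HW κ n) ℂ) (o : I)
    (σ : K o →+* ℂ) (hϖ : ϖ ≠ 0)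
    (hndr : ∀ v, (∀ u, bp n P F M o σ (ComplexEmbedding.conjugate σ) u v = 0) → v = 0)
    (x : Vs n P F M ⟨o, ComplexEmbedding.conjugate σ⟩) (s : Fin 4 → ℂ)
    (hs : ∀ i, IsAlgebraic ℚ (s i))
    (h : ∀ i : Fin 4, bp n P F M o σ (ComplexEmbedding.conjugate σ) (bV n P F M ⟨o, σ⟩ i) x = s i)
    (l : Fin 4) :
    IsAlgebraic ℚ (ϖ * (bV n P F M ⟨o, ComplexEmbedding.conjugate σ⟩).repr x l) := by
  classical
  have hbp : ∀ i l : Fin 4, bp n P F M o σ (ComplexEmbedding.conjugate σ) (bV n P F M ⟨o, σ⟩ i)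
      (bV n P F M ⟨o, ComplexEmbedding.conjugate σ⟩ l) =
      (P o).ψ ((F o).e σ i) ((F o).e (ComplexEmbedding.conjugate σ) l) := by
    intro i l
    rw [bp_apply]
    have h1 := bV_coe n P F M ⟨o, σ⟩ i
    have h2 := bV_coe n P F M ⟨o, ComplexEmbedding.conjugate σ⟩ l
    simp only at h1 h2
    rw [h1, h2]
  have hx : ∀ (c : Fin 4 → ℂ) (i : Fin 4), bp n P F M o σ (ComplexEmbedding.conjugate σ)
      (bV n P F M ⟨o, σ⟩ i) (∑ l, c l • bV n P F M ⟨o, ComplexEmbedding.conjugate σ⟩ l) =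
      ∑ l, (ϖ⁻¹ * (P o).ψ ((F o).e σ i) ((F o).e (ComplexEmbedding.conjugate σ) l)) *
        (ϖ * c l) := by
    intro c i
    rw [map_sum]
    refine Finset.sum_congr rfl fun l _ => ?_
    rw [map_smul, hbp, smul_eq_mul]
    field_simp
  refine alg_solve (Matrix.of fun i l => ϖ⁻¹ * (P o).ψ ((F o).e σ i)
    ((F o).e (ComplexEmbedding.conjugate σ) l)) (fun i j => alg_psi_e4 (F o) hϖ _ _ i j) ?_ s
    (fun l => ϖ * (bV n P F M ⟨o, ComplexEmbedding.conjugate σ⟩).repr x l) hs (fun i => ?_) l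
  · intro h0
    obtain ⟨c, hc0, hc⟩ := Matrix.exists_mulVec_eq_zero_iff.mpr h0
    apply hc0
    have h1 : ∑ l, (ϖ⁻¹ * c l) • bV n P F M ⟨o, ComplexEmbedding.conjugate σ⟩ l = 0 := by
      apply hndr
      have h2 : (bp n P F M o σ (ComplexEmbedding.conjugate σ)).flip
          (∑ l, (ϖ⁻¹ * c l) • bV n P F M ⟨o, ComplexEmbedding.conjugate σ⟩ l) = 0 := by
        apply (bV n P F M ⟨o, σ⟩).ext
        intro i
        rw [LinearMap.flip_apply, hx, LinearMap.zero_apply]
        have h3 := congrFun hc i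
        rw [Matrix.mulVec, dotProduct] at h3
        simp only [Matrix.of_apply, Pi.zero_apply] at h3
        refine Eq.trans (Finset.sum_congr rfl fun l _ => ?_) h3
        rw [mul_inv_cancel_left₀ hϖ]
      intro u
      have h4 := congrArg (fun g => g u) h2
      simpa using h4
    funext l
    have h5 := Fintype.linearIndependent_iff.mp
      (bV n P F M ⟨o, ComplexEmbedding.conjugate σ⟩).linearIndependent (fun l => ϖ⁻¹ * c l) h1 l
    exact (mul_eq_zero.mp h5).resolve_left (inv_ne_zero hϖ)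
  · have h6 := hx (fun l => (bV n P F M ⟨o, ComplexEmbedding.conjugate σ⟩).repr x l) i
    rw [(bV n P F M ⟨o, ComplexEmbedding.conjugate σ⟩).sum_repr, h] at h6
    exact h6.symm

theorem extract_alg (o : I) (hϖ : ϖ ≠ 0) (σ : K o →+* ℂ)
    (hσ' : ComplexEmbedding.conjugate σ ≠ σ)
    (hsimple : ∀ f, IsDRB (P o) (P o) f → ∃ x, ∀ v, f v = (F o).ρ x v)
    {k : ℕ} (α : (HW κ n) [⋀^Fin (2 * k)]→ₗ[ℂ] ℂ)
    (hB : ∀ v : Fin (2 * k) → HW κ n, (∀ r, IsRatP n P (v r)) → ∃ q : ℚ, α v = ϖ ^ k * q)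
    (hA : ∀ v : Fin (2 * k) → HW κ n, (∀ r i m j, IsAlgebraic ℚ (v r i m j)) →
      IsAlgebraic ℚ (α v))
    (mm : Fin (2 * k) → Fin (n o)) (ν : Fin (2 * k) → Bool) (v0 : Fin (2 * k) → HW κ n)
    (hv0 : α (fun s => EE n P F ⟨o, mm s, if ν s then σ else ComplexEmbedding.conjugate σ⟩
      (v0 s)) ≠ 0)
    (hpq : (Finset.univ.filter (fun s => ¬ ν s = true)).card <
      (Finset.univ.filter (fun s => ν s = true)).card)
    (v : Fin 4 → (κ o → ℂ)) (hv : ∀ s j, IsAlgebraic ℚ (v s j)) :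
    IsAlgebraic ℚ (ϖ ^ 2 * detF (F o) σ v) := by
  classical
  by_cases hdet : detF (F o) σ v = 0
  · rw [hdet, mul_zero]; exact isAlgebraic_zero
  have hr : ∀ i : I, 0 < (fun _ : I => 4) i := fun _ => by norm_num
  obtain ⟨M, hM⟩ : ∃ M, M = (α : MultilinearMap ℂ (fun _ : Fin (2 * k) => HW κ n) ℂ) := ⟨_, rfl⟩
  have hMα : ∀ v, M v = α v := fun v => by rw [hM]; rfl
  have hBM : ∀ v : Fin (2 * k) → HW κ n, (∀ r, IsRatP n P (v r)) → ∃ q : ℚ, M v = ϖ ^ k * q :=
    fun v h => by rw [hMα]; exact hB v h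
  have hAM : ∀ v : Fin (2 * k) → HW κ n, (∀ r i m j, IsAlgebraic ℚ (v r i m j)) →
      IsAlgebraic ℚ (M v) := fun v h => by rw [hMα]; exact hA v h
  obtain ⟨q, hq⟩ : ∃ q : Fin (2 * k) → At n K, q = fun s =>
    ⟨o, mm s, if ν s then σ else ComplexEmbedding.conjugate σ⟩ := ⟨_, rfl⟩
  have hqs : ∀ s, q s = ⟨o, mm s, if ν s then σ else ComplexEmbedding.conjugate σ⟩ :=
    fun s => by rw [hq]
  obtain ⟨Φ, hΦ⟩ : ∃ Φ : (Fin (2 * k) → HW κ n) → ℂ, Φ = fun v =>
    α (fun s => EE n P F (q s) (v s)) := ⟨_, rfl⟩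
  have hSF : SF (symG n P M) (EE n P F) q Finset.univ Φ := by
    rw [hM, hΦ]; exact SF_label n P F α q
  have hΦ0 : Φ v0 ≠ 0 := by
    rw [hΦ]
    simp only [hqs]
    exact hv0
  have hirr : ∀ s, LieModule.IsIrreducible ℂ (LL n P F M) (Vs n P F M s) :=
    fun s => Vs_irr n P F M hϖ hBM hAM s (hr s.1)
  have htr := LL_trivialRadical n P F M hϖ hBM hAM hr
  have hk : IsKilling ℂ (LL n P F M) := inferInstance
  obtain ⟨A, hA'⟩ : ∃ A : Finset (Fin (2 * k)), A = Finset.univ.filter (fun s => ν s = true) :=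
    ⟨_, rfl⟩
  obtain ⟨B, hB'⟩ : ∃ B : Finset (Fin (2 * k)), B = Finset.univ.filter (fun s => ¬ ν s = true) :=
    ⟨_, rfl⟩
  have hcard : A.card + B.card = 2 * k := by
    rw [hA', hB', Finset.card_filter_add_card_filter_not, Finset.card_univ, Fintype.card_fin]
  rw [← hA', ← hB'] at hpq
  -- the weights
  have hwt : ∀ X, IsInv n P M X → 2 * ch P F ⟨o, σ⟩ X = X.2 := by
    intro X hX
    have h1 := weight_sum n P F M hk hSF v0 hΦ0 X hX
    have h2 : ∀ s, ch P F (pl n (q s)) X = if ν s = true then ch P F ⟨o, σ⟩ X else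
        ch P F ⟨o, ComplexEmbedding.conjugate σ⟩ X := by
      intro s
      rw [hqs]
      by_cases hν : ν s = true
      · rw [if_pos hν, if_pos hν]
      · rw [if_neg hν, if_neg hν]
    rw [Finset.sum_congr rfl fun s _ => h2 s, Finset.sum_ite, Finset.sum_const, Finset.sum_const,
      ← hA', ← hB', nsmul_eq_mul, nsmul_eq_mul, Finset.card_univ, Fintype.card_fin] at h1
    have h3 : ch P F ⟨o, σ⟩ X + ch P F ⟨o, ComplexEmbedding.conjugate σ⟩ X = X.2 :=
      ch_conj n P F M hr ⟨o, σ⟩ X hX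
    have h4 : ((A.card : ℂ) - B.card) * (2 * ch P F ⟨o, σ⟩ X - X.2) = 0 := by
      have h5 : (A.card : ℂ) + B.card = ((2 * k : ℕ) : ℂ) := by exact_mod_cast hcard
      linear_combination h1 - 2 * (B.card : ℂ) * h3 - X.2 * h5
    have h6 : (A.card : ℂ) - B.card ≠ 0 := by
      rw [sub_ne_zero]
      exact_mod_cast hpq.ne'
    have h7 := (mul_eq_zero.mp h4).resolve_left h6
    linear_combination h7
  have key := slots_key n P F M o σ hr hk (hirr _) rfl
    (not_self_dual n P F M hϖ hBM hAM hr ⟨o, σ⟩ hσ' hwt hsimple) hSF mm ν (fun s _ => hqs s)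
  rw [← hA', ← hB'] at key
  have hfd : FiniteDimensional ℂ (Vs n P F M ⟨o, σ⟩) :=
    (bV n P F M ⟨o, σ⟩).finiteDimensional_of_finite
  have hfd' : FiniteDimensional ℂ (Vs n P F M ⟨o, ComplexEmbedding.conjugate σ⟩) :=
    (bV n P F M ⟨o, ComplexEmbedding.conjugate σ⟩).finiteDimensional_of_finite
  have hd : finrank ℂ (Vs n P F M ⟨o, σ⟩) = 4 := finrank_Vs n P F M ⟨o, σ⟩
  have hd' : finrank ℂ (Vs n P F M ⟨o, ComplexEmbedding.conjugate σ⟩) = 4 :=
    finrank_Vs n P F M ⟨o, ComplexEmbedding.conjugate σ⟩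
  have hpair := bp_pair n P F M hr o σ
  -- the bases
  obtain ⟨b, hb⟩ : ∃ b : Basis (Fin 4) ℂ (Vs n P F M ⟨o, σ⟩), b = bV n P F M ⟨o, σ⟩ := ⟨_, rfl⟩
  obtain ⟨f, hf⟩ : ∃ f : Fin 4 → Vs n P F M ⟨o, σ⟩, ∀ i, f i = toVs n P F M ⟨o, σ⟩ (v i) :=
    ⟨_, fun i => rfl⟩
  have hdet1 : Matrix.det (Matrix.of fun i j => b.repr (f i) j) = detF (F o) σ v := by
    rw [detF_apply]
    congr 1
    ext i j
    rw [Matrix.of_apply, hb, hf]
    have h1 := bV_repr n P F M ⟨o, σ⟩ (toVs n P F M ⟨o, σ⟩ (v i)) j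
    rw [h1, toVs_apply]
    exact co_projF (F o) σ j (v i)
  obtain ⟨T, T', hTf, hTT, hdd, hdT, hTb, hspan⟩ := exists_contra
    (bp n P F M o σ (ComplexEmbedding.conjugate σ)) hpair.ndl hpair.ndr b f (by rw [hdet1]; exact hdet)
  rw [hdet1] at hdT
  -- vectors with algebraic coordinates
  obtain ⟨y, hy⟩ : ∃ y : (Fin (2 * k) → Fin 4 × κ o) → Fin (2 * k) →
      (Vs n P F M ⟨o, σ⟩ × Vs n P F M ⟨o, ComplexEmbedding.conjugate σ⟩), ∀ p s, y p s =
      (if ν s = true then f (p s).1 else 0, if ν s = true then 0 else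
        toVs n P F M ⟨o, ComplexEmbedding.conjugate σ⟩ (Pi.single (p s).2 1)) :=
    ⟨_, fun p s => rfl⟩
  obtain ⟨p, hp⟩ : ∃ p, α (inV n P F M o σ mm ν (y p)) ≠ 0 := by
    by_contra hcon
    push Not at hcon
    apply hv0
    refine ml_zero (α : MultilinearMap ℂ (fun _ : Fin (2 * k) => HW κ n) ℂ)
      (fun s => Set.range (fun p : Fin 4 × κ o => w1S n P F M o σ mm ν s
        (if ν s = true then f p.1 else 0, if ν s = true then 0 else
        toVs n P F M ⟨o, ComplexEmbedding.conjugate σ⟩ (Pi.single p.2 1)))) (fun u hu => ?_)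
      _ (fun s => ?_)
    · choose p hp using hu
      have h1 : u = inV n P F M o σ mm ν (y p) := by
        funext s
        rw [← hp s, inV, hy]
      rw [h1]
      exact hcon p
    · rw [EE_w1S n P F M o σ mm ν s (v0 s)]
      have hone : κ o → Nonempty (κ o) := fun j => ⟨j⟩
      by_cases hν : ν s = true
      · have hκ : Nonempty (κ o) := by
          by_contra hcon
          rw [not_nonempty_iff] at hcon
          apply hdet
          have h1 : v = 0 := by
            funext i j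
            exact hcon.elim j
          rw [h1]
          exact AlternatingMap.map_zero _
        obtain ⟨j0⟩ := hκ
        have h1 : w1S n P F M o σ mm ν s (out2 n P F M o σ (mm s) (v0 s)) =
            inS n P F M ⟨o, mm s, σ⟩ (outS n P F M ⟨o, mm s, σ⟩ (v0 s)) := by
          rw [w1S, if_pos hν]; rfl
        rw [h1]
        have h2 : ∀ x ∈ Submodule.span ℂ (Set.range f), inS n P F M ⟨o, mm s, σ⟩ x ∈
            Submodule.span ℂ (Set.range (fun p : Fin 4 × κ o => w1S n P F M o σ mm ν s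
            (if ν s = true then f p.1 else 0, if ν s = true then 0 else
            toVs n P F M ⟨o, ComplexEmbedding.conjugate σ⟩ (Pi.single p.2 1)))) := by
          intro x hx
          induction hx using Submodule.span_induction with
          | mem x hx =>
            obtain ⟨i, rfl⟩ := hx
            refine Submodule.subset_span ⟨(i, j0), ?_⟩
            simp only [w1S, if_pos hν]
            rfl
          | zero => rw [map_zero]; exact Submodule.zero_mem _
          | add x y _ _ hx hy => rw [map_add]; exact Submodule.add_mem _ hx hy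
          | smul c x _ hx => rw [map_smul]; exact Submodule.smul_mem _ _ hx
        exact h2 _ (hspan _)
      · have h1 : w1S n P F M o σ mm ν s (out2 n P F M o σ (mm s) (v0 s)) =
            inS n P F M ⟨o, mm s, ComplexEmbedding.conjugate σ⟩
              (toVs n P F M ⟨o, ComplexEmbedding.conjugate σ⟩ (v0 s o (mm s))) := by
          rw [w1S, if_neg hν]; rfl
        rw [h1]
        have h2 : (v0 s o (mm s)) = ∑ j, (v0 s o (mm s)) j • (Pi.single j (1 : ℂ) : κ o → ℂ) := by
          funext j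
          rw [Finset.sum_apply, Finset.sum_eq_single j]
          · rw [Pi.smul_apply, Pi.single_eq_same, smul_eq_mul, mul_one]
          · intro b _ hb
            rw [Pi.smul_apply, Pi.single_eq_of_ne (Ne.symm hb), smul_zero]
          · intro h; exact absurd (Finset.mem_univ _) h
        rw [h2, map_sum, map_sum]
        refine Submodule.sum_mem _ fun j _ => ?_
        rw [map_smul, map_smul]
        refine Submodule.smul_mem _ _ (Submodule.subset_span ⟨(0, j), ?_⟩)
        simp only [w1S, if_neg hν]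
        rfl
  -- the values
  have hval : ∀ z, Φ (inV n P F M o σ mm ν z) = α (inV n P F M o σ mm ν z) := by
    intro z
    rw [hΦ]
    show α (fun s => EE n P F (q s) (inV n P F M o σ mm ν z s)) = _
    congr 1
    funext s
    rw [hqs]
    exact EE_inV n P F M o σ mm ν s z
  have hyA : ∀ s ∈ A, (y p s).2 = 0 := by
    intro s hs
    rw [hA', Finset.mem_filter] at hs
    rw [hy, if_pos hs.2]
    exact if_pos hs.2
  have hyB : ∀ s ∈ B, (y p s).1 = 0 := by
    intro s hs
    rw [hB', Finset.mem_filter] at hs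
    rw [hy]
    exact if_neg hs.2
  have hAB : Disjoint A B := by
    rw [hA', hB']; exact Finset.disjoint_filter_filter_not _ _ _
  obtain ⟨c, d, hcd⟩ := PQ_count hd hd' (bp n P F M o σ (ComplexEmbedding.conjugate σ)) A B hAB _
    key (y p) hyA hyB (by rw [hval]; exact hp)
  obtain ⟨m, hm0, hm⟩ : ∃ m, 0 < m ∧ A.card = B.card + 4 * m :=
    ⟨c - d, by omega, by omega⟩
  have hhom := PQ_homog hd hd' (bp n P F M o σ (ComplexEmbedding.conjugate σ)) T T' hTT hdd A B hAB m
    hm _ key (y p) hyA hyB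
  simp only [hval] at hhom
  obtain ⟨z, hz⟩ : ∃ z : Fin (2 * k) →
      (Vs n P F M ⟨o, σ⟩ × Vs n P F M ⟨o, ComplexEmbedding.conjugate σ⟩), z = fun s =>
      (T (y p s).1, T' (y p s).2) := ⟨_, rfl⟩
  rw [← hz] at hhom
  have hzs : ∀ s, z s = (T (y p s).1, T' (y p s).2) := fun s => by rw [hz]
  -- the values in terms of adapted vectors
  obtain ⟨τ, hτ⟩ : ∃ τ : Fin (2 * k) → (K o →+* ℂ), ∀ s, τ s =
    if ν s = true then σ else ComplexEmbedding.conjugate σ := ⟨_, fun s => rfl⟩
  obtain ⟨a, ha⟩ : ∃ a : Fin (2 * k) → Fin 4 → ℂ, ∀ s l, a s l =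
      if ν s = true then (if l = (p s).1 then 1 else 0) else
        ϖ * (bV n P F M ⟨o, ComplexEmbedding.conjugate σ⟩).repr (z s).2 l := ⟨_, fun s l => rfl⟩
  have haalg : ∀ s l, IsAlgebraic ℚ (a s l) := by
    intro s l
    rw [ha]
    by_cases hν : ν s = true
    · rw [if_pos hν]
      split_ifs
      · exact isAlgebraic_one
      · exact isAlgebraic_zero
    · rw [if_neg hν]
      refine coord_alg n P F M o σ hϖ hpair.ndr (z s).2
        (fun i => (P o).ψ (proj (F o).ρ σ (v i)) (proj (F o).ρ (ComplexEmbedding.conjugate σ)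
          (Pi.single (p s).2 1))) (fun i => ?_) (fun i => ?_) l
      · exact alg_psi4 _ _ (alg_proj4 (F o) σ _ (hv i)) (alg_proj4 (F o) _ _ (fun j => by
          by_cases hj : j = (p s).2
          · subst hj; rw [Pi.single_eq_same]; exact isAlgebraic_one
          · rw [Pi.single_eq_of_ne hj]; exact isAlgebraic_zero))
      · rw [hzs, hy, if_neg hν, if_neg hν]
        have h1 := hTb i (toVs n P F M ⟨o, ComplexEmbedding.conjugate σ⟩ (Pi.single (p s).2 1))
        rw [hb] at h1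
        refine Eq.trans h1 ?_
        rw [bp_apply, hf]
        have h2 := toVs_apply n P F M ⟨o, σ⟩ (v i)
        have h3 := toVs_apply n P F M ⟨o, ComplexEmbedding.conjugate σ⟩
          (Pi.single (p s).2 (1 : ℂ) : κ o → ℂ)
        simp only at h2 h3
        rw [h2, h3]
  obtain ⟨w, hw⟩ : ∃ w : Fin (2 * k) → HW κ n, w = fun s => ∑ l, a s l •
      slotL n o (mm s) ((F o).e (τ s) l) := ⟨_, rfl⟩
  have hws : inV n P F M o σ mm ν z = fun s => (if ν s = true then (1 : ℂ) else ϖ⁻¹) • w s := by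
    funext s
    by_cases hν : ν s = true
    · rw [inV_true n P F M o σ mm ν z s hν, if_pos hν, one_smul, hzs, hy, if_pos hν, if_pos hν]
      show inS n P F M ⟨o, mm s, σ⟩ (T (f (p s).1)) = w s
      rw [hTf, inS_apply, hb]
      have h2 := bV_coe n P F M ⟨o, σ⟩ (p s).1
      simp only at h2
      show slotL n o (mm s) _ = _
      rw [h2, hw]
      simp only
      rw [Finset.sum_eq_single (p s).1]
      · rw [ha, if_pos hν, if_pos rfl, one_smul, hτ, if_pos hν]
      · intro l _ hl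
        rw [ha, if_pos hν, if_neg hl, zero_smul]
      · intro h; exact absurd (Finset.mem_univ _) h
    · rw [inV_false n P F M o σ mm ν z s (by simpa using hν), if_neg hν]
      have h1 := (bV n P F M ⟨o, ComplexEmbedding.conjugate σ⟩).sum_repr (z s).2
      rw [← h1, map_sum, hw]
      simp only
      rw [Finset.smul_sum]
      refine Finset.sum_congr rfl fun l _ => ?_
      rw [map_smul, ha, if_neg hν, smul_smul, inv_mul_cancel_left₀ hϖ, inS_apply, hτ, if_neg hν]
      have h2 := bV_coe n P F M ⟨o, ComplexEmbedding.conjugate σ⟩ l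
      simp only at h2
      congr 1
      show slotL n o (mm s) _ = _
      rw [h2]
  have hprod : α (inV n P F M o σ mm ν z) = (ϖ⁻¹) ^ B.card * α w := by
    rw [hws]
    have h1 := (α : MultilinearMap ℂ (fun _ : Fin (2 * k) => HW κ n) ℂ).map_smul_univ
      (fun s => if ν s = true then (1 : ℂ) else ϖ⁻¹) w
    rw [Finset.prod_ite, Finset.prod_const_one, one_mul, Finset.prod_const, smul_eq_mul,
      ← hB'] at h1
    exact h1
  have halg1 : IsAlgebraic ℚ ((ϖ ^ k)⁻¹ * α w) := by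
    rw [hw]
    exact alg_comb (α : MultilinearMap ℂ (fun _ : Fin (2 * k) => HW κ n) ℂ) ((ϖ ^ k)⁻¹) a
      (fun s l => slotL n o (mm s) ((F o).e (τ s) l)) haalg
      (fun t => alg_val n P F α hϖ hB o mm τ t)
  have halg2 : IsAlgebraic ℚ (α (inV n P F M o σ mm ν (y p))) := by
    refine hA _ fun s i m' j => ?_
    by_cases hν : ν s = true
    · rw [inV_true n P F M o σ mm ν _ s hν, hy, if_pos hν, if_pos hν]
      show IsAlgebraic ℚ ((inS n P F M ⟨o, mm s, σ⟩ (f (p s).1)) i m' j)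
      rw [inS_apply, hf]
      have h2 := toVs_apply n P F M ⟨o, σ⟩ (v (p s).1)
      simp only at h2
      show IsAlgebraic ℚ ((slotL n o (mm s) _) i m' j)
      rw [h2]
      exact slotL_alg n o (mm s) _ (alg_proj4 (F o) σ _ (hv _)) i m' j
    · rw [inV_false n P F M o σ mm ν _ s (by simpa using hν), hy, if_neg hν, if_neg hν]
      show IsAlgebraic ℚ ((inS n P F M ⟨o, mm s, ComplexEmbedding.conjugate σ⟩
        (toVs n P F M ⟨o, ComplexEmbedding.conjugate σ⟩ (Pi.single (p s).2 1))) i m' j)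
      rw [inS_apply]
      have h2 := toVs_apply n P F M ⟨o, ComplexEmbedding.conjugate σ⟩
        (Pi.single (p s).2 (1 : ℂ) : κ o → ℂ)
      simp only at h2
      show IsAlgebraic ℚ ((slotL n o (mm s) _) i m' j)
      rw [h2]
      exact slotL_alg n o (mm s) _ (alg_proj4 (F o) _ _ (fun j => by
          by_cases hj : j = (p s).2
          · subst hj; rw [Pi.single_eq_same]; exact isAlgebraic_one
          · rw [Pi.single_eq_of_ne hj]; exact isAlgebraic_zero)) i m' j
  -- conclusion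
  obtain ⟨D, hD⟩ : ∃ D, D = LinearMap.det T := ⟨_, rfl⟩
  rw [← hD] at hhom hdT
  rw [hprod] at hhom
  obtain ⟨x, hx⟩ : ∃ x, x = α (inV n P F M o σ mm ν (y p)) := ⟨_, rfl⟩
  rw [← hx] at hhom halg2 hp
  have hkm : k = B.card + 2 * m := by omega
  have hϖB : ϖ ^ B.card ≠ 0 := pow_ne_zero _ hϖ
  have e1 : (D * (ϖ ^ 2)⁻¹) ^ m = (ϖ ^ k)⁻¹ * α w * x⁻¹ := by
    have h1 : α w = ϖ ^ B.card * (D ^ m * x) := by
      rw [← hhom, inv_pow, mul_inv_cancel_left₀ hϖB]
    have h2 : ϖ ^ k = ϖ ^ B.card * (ϖ ^ 2) ^ m := by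
      rw [← pow_mul, ← pow_add]
      exact congrArg (fun j => ϖ ^ j) hkm
    rw [h1, h2, mul_pow, inv_pow]
    field_simp
  have e2 : IsAlgebraic ℚ (D * (ϖ ^ 2)⁻¹) := by
    refine IsAlgebraic.of_pow hm0 ?_
    rw [e1]
    exact halg1.mul halg2.inv
  have e3 : ϖ ^ 2 * detF (F o) σ v = (D * (ϖ ^ 2)⁻¹)⁻¹ := by
    have hD0 : D ≠ 0 := by
      intro h0
      rw [h0, zero_mul] at hdT
      exact zero_ne_one hdT
    rw [mul_inv, inv_inv, mul_comm]
    congr 1
    exact (inv_eq_of_mul_eq_one_right hdT).symm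
  rw [e3]
  exact e2.inv

end family

end Pool.Agent.Helper24
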