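import Pool.Agent.Helper7.W4.Unbal0
import Pool.Agent.Helper40.Gpc.DefsG

/-!
A Grothendieck class on a power of an abelian fourfold with imaginary quadratic endomorphism algebra
which is not killed by `J` gives a Grothendieck Weil class.
-/

namespace Pool.Agent.GPC

open Module NumberField Pool.Agent.Helper7 Pool.Agent.Helper24

theorem exists_weil_of_unbalanced (A : AbVar) (hg : A.g = 4) (d : ℚ) (J : A.H1 → A.H1)
    (H : A.IsQuadBy d J) (n k : ℕ) (α : PowForm A n (2 * k))
    (hα : IsGrothendieck (fun _ : Unit => A) (fun _ => n) k α)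
    (hJα : ¬ IsKilledBy A n (2 * k) J α) :
    ∃ w : A.H1 [⋀^Fin 4]→ₗ[ℂ] ℂ, w ≠ 0 ∧ A.IsGrWeil J w :=
  exists_weil_of_unbalanced0 A hg d J H n k α hα hJα

end Pool.Agent.GPC
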