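import Pool.Agent.Helper7.W4.Core
import Pool.Agent.Helper7.W4.BalSpan
import Pool.Agent.Helper7.W4.Unbal
import Pool.Agent.Helper11.W4.Span
import Pool.Agent.Helper11.W4.Conv

/-!
All powers of abelian fourfolds of Weil type.
-/

namespace Pool.Agent.GPC

open Module NumberField Pool.Agent.Helper7 Pool.Agent.Helper24 Pool.Agent.Helper11.W4

set_option linter.unusedSectionVars false

/-- All Grothendieck classes on the powers of an abelian fourfold with an imaginary quadratic
endomorphism algebra with one non-zero Grothendieck Weil class are generated by divisors and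
Weil classes. -/
theorem pow_weil_four (A : AbVar) (hg : A.g = 4) (d : ℚ) (J : A.H1 → A.H1) (H : A.IsQuadBy d J)
    (w0 : A.H1 [⋀^Fin 4]→ₗ[ℂ] ℂ) (hw0 : w0 ≠ 0) (hG : A.IsGrWeil J w0) (n k : ℕ)
    (α : Form (fun _ : Unit => A) (fun _ => n) (2 * k))
    (hα : IsGrothendieck (fun _ : Unit => A) (fun _ => n) k α) : IsDivWeilPow A n J k α := by
  classical
  obtain ⟨hα1, hα2⟩ := id hα
  obtain ⟨K, _, _, hCM, ρ, x, C, h2, hx⟩ := H.exists_cm (by omega)
  obtain ⟨F, hF, -⟩ := nonempty_UFh A K ρ C 4 (by rw [h2, hg])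
  have hFx : ∀ v, F.ρ x v = J v := fun v => by rw [hF, hx]
  obtain ⟨σ⟩ : Nonempty (K →+* ℂ) := inferInstance
  obtain ⟨z, hz⟩ : ∃ z, z = σ x := ⟨_, rfl⟩
  have hzd : z ^ 2 = -(d : ℂ) := by
    have h1 := H.sq (F.e σ 0)
    rw [← hFx, ← hFx, F.rho_e, map_smul, F.rho_e, smul_smul, ← sub_eq_zero, ← sub_smul,
      smul_eq_zero] at h1
    rw [hz, pow_two]
    exact sub_eq_zero.mp (h1.resolve_right (Pool.Agent.Helper24.e_ne F σ 0))
  have hzc := conj_of_sq H.pos hzd
  have hd0 : (d : ℂ) ≠ 0 := by exact_mod_cast H.pos.ne'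
  have hz0 : z ≠ 0 := by
    rintro h0
    rw [h0] at hzd
    apply hd0
    linear_combination hzd
  have hx' : ComplexEmbedding.conjugate σ x = -z := by
    rw [ComplexEmbedding.conjugate_coe_eq, ← hz, hzc]
  have hJJ : ∀ u, F.ρ x (F.ρ x u) = z ^ 2 • u := fun u => by rw [hFx, hFx, H.sq, hzd]
  have hϖ := Complex.two_pi_I_ne_zero
  have hne' : ComplexEmbedding.conjugate σ ≠ σ := fun hν =>
    IsTotallyComplex.complexEmbedding_not_isReal σ (ComplexEmbedding.isReal_iff.mpr hν)
  have hQB : ∀ v : HW (fun _ : Unit => Fin A.g ⊕ Fin A.g) (fun _ => n),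
      IsRatP (fun _ => n) (fun _ => pData A) v → IsBetti (fun _ : Unit => A) (fun _ => n) v :=
    fun v hv i m => (mem_pData_Q _ _).mp (hv i m)
  have hBQ : ∀ v : HW (fun _ : Unit => Fin A.g ⊕ Fin A.g) (fun _ => n),
      IsBetti (fun _ : Unit => A) (fun _ => n) v → IsRatP (fun _ => n) (fun _ => pData A) v :=
    fun v hv i m => (mem_pData_Q _ _).mpr (hv i m)
  rcases Nat.eq_zero_or_pos n with hn | hn
  · -- the trivial power
    subst hn
    refine divWeilPow_of_span A 0 J k (bal_span H hg hw0 hG) α hα2 (l := 0) 0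
      (fun v _ => ⟨0, by simp⟩) (fun v _ => isAlgebraic_zero) ?_
    rcases Nat.eq_zero_or_pos k with hk | hk
    · subst hk
      have h1 : (fun v => α v) = (α 0) • (fun _ : Fin (2 * 0) →
          H1 (fun _ : Unit => A) (fun _ => 0) => (1 : ℂ)) := by
        funext v
        have : v = 0 := by
          funext r i m
          exact m.elim0
        rw [this, Pi.smul_apply, smul_eq_mul, mul_one]
      rw [h1]
      refine Submodule.smul_mem _ _ (Submodule.subset_span ?_)
      exact PQ.nil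
    · have h1 : (fun v => α v) = 0 := by
        funext v
        have h2 : v ⟨0, by omega⟩ = 0 := by
          funext i m
          exact m.elim0
        exact α.map_coord_zero _ h2
      rw [h1]
      exact Submodule.zero_mem _
  · obtain ⟨M, hBM, hAM, hM⟩ := w4_core (κ := fun _ : Unit => Fin A.g ⊕ Fin A.g) (fun _ => n)
      (fun _ => pData A) (K := fun _ => K) (r := fun _ => 4) (fun _ => F) (o := ())
      (fun _ => rfl) ⟨0, hn⟩ rfl x hz0 σ (fun σ' => Pool.Agent.Helper24.emb_two h2 σ σ') hne'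
      hz.symm hx' hJJ d H.pos hzd w0
      (fun v r s => by rw [hFx, hFx]; exact hG.1 v r s) hw0 hϖ
      (fun v hv => hG.2.1 v (fun r => (mem_pData_Q _ _).mp (hv r)))
      (fun v hv => hG.2.2 v hv)
      (fun f hf => by
        obtain ⟨a, b, hab⟩ := H.all f (isEnd_of_isDRB A f hf)
        refine ⟨a + b * x, fun v => ?_⟩
        have hrat : ∀ (q : ℚ) v, F.ρ (q : K) v = (q : ℂ) • v := by
          intro q v
          have h3 : F.ρ (q : K) = (algebraMap ℚ (Module.End ℂ A.H1)) q := by
            rw [← RingHom.congr_fun (Subsingleton.elim (F.ρ.comp (algebraMap ℚ K))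
              (algebraMap ℚ (Module.End ℂ A.H1))) q]
            rfl
          rw [h3, Module.algebraMap_end_apply]
          exact (Rat.cast_smul_eq_qsmul ℂ q v).symm
        rw [map_add, map_mul, LinearMap.add_apply, Module.End.mul_apply, hrat, hrat, hFx, hab])
      α (fun v hv => hα2 v (fun r => hQB _ (hv r))) hα1
    refine divWeilPow_of_span A n J k (bal_span H hg hw0 hG) α hα2 M
      (fun v hv => hBM v (fun r => hBQ _ (hv r))) hAM ?_
    have hDW : DW (κ := fun _ : Unit => Fin A.g ⊕ Fin A.g) (fun _ => n)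
      (fun _ => pData A) (K := fun _ => K) (r := fun _ => 4) (fun _ => F) () x =
        {D | ∃ (m : Fin 4 → Fin n) (w : A.H1 [⋀^Fin 4]→ₗ[ℂ] ℂ),
          (∀ v r s, w (Function.update v r (J (v r))) = w (Function.update v s (J (v s)))) ∧
          ∀ u, D u = w (fun j => u j () (m j))} := by
      have hJF : ∀ v, J v = F.ρ x v := fun v => (hFx v).symm
      simp only [hJF]
      rfl
    rw [← hDW]
    exact hM

/-- The dichotomy for abelian fourfolds with imaginary quadratic endomorphism algebra. -/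
theorem weil_dichotomy (A : AbVar) (hg : A.g = 4) (d : ℚ) (J : A.H1 → A.H1)
    (H : A.IsQuadBy d J) :
    (∀ (n k : ℕ) (α : PowForm A n (2 * k)), IsGrothendieck (fun _ : Unit => A) (fun _ => n) k α →
      IsKilledBy A n (2 * k) J α) ∨
    ((∃ w, w ≠ 0 ∧ A.IsGrWeil J w) ∧ ∀ (n k : ℕ) (α : PowForm A n (2 * k)),
      IsGrothendieck (fun _ : Unit => A) (fun _ => n) k α ↔ IsDivWeilPow A n J k α) := by
  by_cases h : ∀ (n k : ℕ) (α : PowForm A n (2 * k)),
      IsGrothendieck (fun _ : Unit => A) (fun _ => n) k α → IsKilledBy A n (2 * k) J α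
  · exact Or.inl h
  · right
    push Not at h
    obtain ⟨n, k, α, hα, hJα⟩ := h
    obtain ⟨w, hw0, hw⟩ := exists_weil_of_unbalanced A hg d J H n k α hα hJα
    exact ⟨⟨w, hw0, hw⟩, fun n k β => ⟨pow_weil_four A hg d J H w hw0 hw n k β,
      isGrothendieck_of_isDivWeilPow A n J k β⟩⟩

end Pool.Agent.GPC
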